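import Pool.Agent.Helper878_dcs.Defs

/-!
# Disjoint Connected Subgraphs on `3P_1`-free graphs: definitions
-/

set_option autoImplicit false

namespace Pool.Agent.Helper878_mm

open Pool.Agent.Helper878_dcs

/-- The graph `3P_1`: three vertices and no edges. -/
def threeP1 : SimpleGraph (Fin 3) := ⊥

/-- No terminal set is split by two nonterminals: there are no vertices `z, z'` of one terminal set
and no nonterminals `a, b` such that `z a` and `z' b` are edges and there is no edge between
`{z, a}` and `{z', b}`.  So no induced `2P_2` of the input graph consists of two vertices of one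
terminal set, one on each edge, and two nonterminals. -/
def NoSplit (I : Inst) : Prop :=
  ∀ Z ∈ I.2.2, ∀ z z' a b : {v // v ∈ I.1}, z.1 ∈ Z → z'.1 ∈ Z →
    (∀ Y ∈ I.2.2, a.1 ∉ Y) → (∀ Y ∈ I.2.2, b.1 ∉ Y) →
    (graph I.1 I.2.1).Adj z a → (graph I.1 I.2.1).Adj z' b →
    (graph I.1 I.2.1).Adj z z' ∨ (graph I.1 I.2.1).Adj z b ∨ (graph I.1 I.2.1).Adj a z' ∨
      (graph I.1 I.2.1).Adj a b

end Pool.Agent.Helper878_mm
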