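import Pool.Agent.Helper878_mm.Corr
import Pool.Agent.Helper878_mm.Defs
import Pool.Agent.Helper878_dcs.Main

/-!
# From connected supersets to options
-/

set_option autoImplicit false
set_option linter.unusedSectionVars false

namespace Pool.Agent.Helper878_mm

open Pool.Agent.NPC Pool.Agent.Helper878_dcs

/-- Inside `U` there is no independent set of size three. -/
def TP (G : SimpleGraph ℕ) (U : Finset ℕ) : Prop :=
  ∀ x ∈ U, ∀ y ∈ U, ∀ z ∈ U, x ≠ y → x ≠ z → y ≠ z → G.Adj x y ∨ G.Adj x z ∨ G.Adj y z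

theorem TP.kp {G : SimpleGraph ℕ} {U : Finset ℕ} (h : TP G U) : KP G U := by
  intro x hx y hy u hu v hv hxy hxu hyu hxv hyv huv
  have e1 : x ≠ u := fun he => hyu (he ▸ hxy.symm)
  have e2 : x ≠ v := fun he => hyv (he ▸ hxy.symm)
  rcases h x hx u hu v hv e1 e2 huv with h1 | h1 | h1
  · exact absurd h1 hxu
  · exact absurd h1 hxv
  · exact h1

theorem free3_iff {V : List ℕ} {E : List (ℕ × ℕ)} :
    Free threeP1 (graph V E) ↔ TP (GG E) V.toFinset := by
  constructor
  · intro hF x hx y hy z hz hxy hxz hyz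
    by_contra hn
    push Not at hn
    rw [List.mem_toFinset] at hx hy hz
    refine hF.false ⟨⟨fun a : Fin 3 => if a = 0 then ⟨x, hx⟩ else if a = 1 then ⟨y, hy⟩ else
      ⟨z, hz⟩, ?_⟩, ?_⟩
    · intro a b hab
      fin_cases a <;> fin_cases b <;> simp_all [Subtype.ext_iff]
    · intro a b
      fin_cases a <;> fin_cases b <;>
        simp [threeP1, graph_adj, hn.1, hn.2.1, hn.2.2, SimpleGraph.adj_comm]
  · intro hK
    refine ⟨fun f => ?_⟩
    have ha : ∀ a b, ¬ (GG E).Adj (f a).1 (f b).1 := fun a b h => by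
      rw [← graph_adj, f.map_adj_iff] at h
      exact h
    have hne : ∀ a b : Fin 3, a ≠ b → (f a).1 ≠ (f b).1 := fun a b hab h =>
      hab (f.injective (Subtype.ext h))
    have hm : ∀ a, (f a).1 ∈ V.toFinset := fun a => List.mem_toFinset.2 (f a).2
    rcases hK _ (hm 0) _ (hm 1) _ (hm 2) (hne _ _ (by decide)) (hne _ _ (by decide))
      (hne _ _ (by decide)) with h | h | h
    · exact ha _ _ h
    · exact ha _ _ h
    · exact ha _ _ h

section
variable {E : List (ℕ × ℕ)} {U : Finset ℕ} {W : List ℕ} {J : List (List ℕ)}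

/-- a connected superset contains an option, and options give connected supersets -/
structure SC (E : List (ℕ × ℕ)) (U : Finset ℕ) (W : List ℕ) (J : List (List ℕ)) : Prop where
  lc : LCtx E U W J
  tp : TP (GG E) U
  ns : ∀ Z ∈ J, ∀ z ∈ Z, ∀ z' ∈ Z, ∀ a ∈ W, ∀ b ∈ W, (GG E).Adj z a → (GG E).Adj z' b →
    (GG E).Adj z z' ∨ (GG E).Adj z b ∨ (GG E).Adj a z' ∨ (GG E).Adj a b

theorem LCtx.toLC (h : LCtx E U W J) : LC W J where
  hWn := h.hWn
  hJn := h.hJn
  hne := h.hne
  hJW := fun Z hZ z hz hw => Finset.disjoint_left.1 (h.hJW Z hZ) (List.mem_toFinset.2 hz)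
    (List.mem_toFinset.2 hw)
  hdis := fun Z hZ Z' hZ' hne z hz hz' => Finset.disjoint_left.1 (h.hdis Z hZ Z' hZ' hne)
    (List.mem_toFinset.2 hz) (List.mem_toFinset.2 hz')

variable (h : SC E U W J) {Z : List ℕ} (hZ : Z ∈ J)
include h hZ

theorem SC.nmm : nm Z ∈ Z.toFinset := List.mem_toFinset.2 (nm_mem (h.lc.hne Z hZ))

theorem SC.ne' : Z.toFinset.Nonempty := ⟨_, h.nmm hZ⟩

/-- three vertices in pairwise different classes do not exist -/
theorem SC.two {x y z : ℕ} (hx : x ∈ Z.toFinset) (hy : y ∈ Z.toFinset) (hz : z ∈ Z.toFinset)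
    (h1 : ¬ near (GG E) Z.toFinset x y) (h2 : ¬ near (GG E) Z.toFinset x z) :
    near (GG E) Z.toFinset y z := by
  by_contra h3
  have hU := h.lc.hJU Z hZ
  rcases h.tp x (hU hx) y (hU hy) z (hU hz) (fun he => h1 (he ▸ near_refl _ _))
    (fun he => h2 (he ▸ near_refl _ _)) (fun he => h3 (he ▸ near_refl _ _)) with h4 | h4 | h4
  · exact h1 (near_of_adj h4)
  · exact h2 (near_of_adj h4)
  · exact h3 (near_of_adj h4)

/-- a nonterminal is adjacent to one of two vertices in different classes -/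
theorem SC.adj_or {x y w : ℕ} (hx : x ∈ Z.toFinset) (hy : y ∈ Z.toFinset) (hw : w ∈ W)
    (h1 : ¬ near (GG E) Z.toFinset x y) : (GG E).Adj w x ∨ (GG E).Adj w y := by
  have hU := h.lc.hJU Z hZ
  have hwU : w ∈ U := h.lc.hWU (List.mem_toFinset.2 hw)
  have hd := Finset.disjoint_left.1 (h.lc.hJW Z hZ)
  rcases h.tp w hwU x (hU hx) y (hU hy) (fun he => hd hx (he ▸ List.mem_toFinset.2 hw))
    (fun he => hd hy (he ▸ List.mem_toFinset.2 hw)) (fun he => h1 (he ▸ near_refl _ _)) with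
    h4 | h4 | h4
  · exact Or.inl h4
  · exact Or.inr h4
  · exact absurd (near_of_adj h4) h1

theorem s1_iff {w : ℕ} : s1B E Z w = true ↔ ¬ miss (GG E) Z.toFinset w (nm Z) := nmiss_iff

theorem s2_iff {w : ℕ} : s2B E Z w = true ↔ ∃ z ∈ Z.toFinset, ¬ near (GG E) Z.toFinset (nm Z) z ∧
    ¬ miss (GG E) Z.toFinset w z := by
  unfold s2B
  simp only [List.any_eq_true, Bool.and_eq_true, nnear_iff, nmiss_iff, List.mem_toFinset]

theorem SC.opt {s : Finset ℕ} (hs : IsOpt W.toFinset (sgJ E J) ⟨Z, hZ⟩ s) :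
    s ⊆ W.toFinset ∧ Con (GG E) (Z.toFinset ∪ s) := by
  have hK := h.lc.hK
  have hU := h.lc.hJU Z hZ
  have hne := h.ne' hZ
  have hd := h.lc.hdc Z hZ
  have h0 := h.nmm hZ
  rcases hs with ⟨c, hc, h1, rfl⟩ | ⟨a, ha, b, hb, h1, h2, rfl⟩
  · refine ⟨Finset.singleton_subset_iff.2 hc, ?_⟩
    unfold sgJ at h1
    rw [sg3_zero] at h1
    unfold zB at h1
    rw [Bool.and_eq_true, s1_iff h hZ, s2_iff h hZ] at h1
    obtain ⟨h1, z', hz', h2, h3⟩ := h1
    refine con_single hne fun z hz hm => ?_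
    by_cases hn : near (GG E) Z.toFinset (nm Z) z
    · exact h1 (miss_congr hK hU hne hd hz h0 (near_symm hn) hm)
    · exact h3 (miss_congr hK hU hne hd hz hz' (h.two hZ h0 hz hz' hn h2) hm)
  · refine ⟨Finset.insert_subset ha (Finset.singleton_subset_iff.2 hb), ?_⟩
    unfold sgJ at h1 h2
    rw [sg3_one] at h1
    rw [sg3_two] at h2
    obtain ⟨ha1, ha2⟩ := h1
    obtain ⟨-, hb2⟩ := h2
    rw [List.mem_toFinset] at ha hb
    rw [s1_iff h hZ] at ha2
    have hbm : miss (GG E) Z.toFinset b (nm Z) := by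
      by_contra hn
      have := (s1_iff h hZ).2 hn
      rw [hb2] at this
      exact absurd this (by decide)
    have ham : ∀ z ∈ Z.toFinset, ¬ near (GG E) Z.toFinset (nm Z) z →
        miss (GG E) Z.toFinset a z := by
      intro z hz hn
      by_contra hm
      have e1 : s2B E Z a = true := (s2_iff h hZ).2 ⟨z, hz, hn, hm⟩
      have e2 : s1B E Z a = true := (s1_iff h hZ).2 ha2
      unfold zB at ha1
      rw [e1, e2] at ha1
      exact absurd ha1 (by decide)
    obtain ⟨z1, hz1, hn1⟩ := exists_not_near hne hd _ h0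
    have e1 := miss_self hz1 (ham z1 hz1 hn1)
    have e2 := miss_self h0 hbm
    have e3 : (GG E).Adj a (nm Z) := (h.adj_or hZ h0 hz1 ha hn1).resolve_right e1
    have e4 : (GG E).Adj b z1 := (h.adj_or hZ h0 hz1 hb hn1).resolve_left e2
    have hab : (GG E).Adj a b := by
      rcases h.ns Z hZ _ (List.mem_toFinset.1 h0) _ (List.mem_toFinset.1 hz1) a ha b hb e3.symm
        e4.symm with h4 | h4 | h4 | h4
      · exact absurd (near_of_adj h4) hn1
      · exact absurd h4.symm e2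
      · exact absurd h4 e1
      · exact h4
    refine con_pair hne ?_ (Or.inl hab)
    intro z hz
    by_cases hn : near (GG E) Z.toFinset (nm Z) z
    · exact Or.inl fun hm => ha2 (miss_congr hK hU hne hd hz h0 (near_symm hn) hm)
    · right
      intro hm
      rcases h.adj_or hZ h0 hz hb hn with h5 | h5
      · exact e2 h5
      · exact miss_self hz hm h5

theorem SC.conv {o : Finset ℕ} (ho : o ⊆ W.toFinset) (hc : Con (GG E) (Z.toFinset ∪ o)) :
    ∃ s ⊆ o, IsOpt W.toFinset (sgJ E J) ⟨Z, hZ⟩ s := by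
  have hK := h.lc.hK
  have hU := h.lc.hJU Z hZ
  have hne := h.ne' hZ
  have hd := h.lc.hdc Z hZ
  have h0 := h.nmm hZ
  obtain ⟨z1, hz1, hn1⟩ := exists_not_near hne hd _ h0
  obtain ⟨a, ha, ha'⟩ := exists_sees hK hU hne hd Finset.subset_union_left hc h0
  obtain ⟨b, hb, hb'⟩ := exists_sees hK hU hne hd Finset.subset_union_left hc hz1
  have hao : a ∈ o := by
    rw [Finset.mem_sdiff, Finset.mem_union] at ha
    exact ha.1.resolve_left ha.2
  have hbo : b ∈ o := by
    rw [Finset.mem_sdiff, Finset.mem_union] at hb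
    exact hb.1.resolve_left hb.2
  cases e1 : zB E Z a
  · cases e2 : zB E Z b
    · refine ⟨{a, b}, Finset.insert_subset hao (Finset.singleton_subset_iff.2 hbo),
        Or.inr ⟨a, ho hao, b, ho hbo, sg3_one.2 ⟨e1, (s1_iff h hZ).2 ha'⟩, sg3_two.2 ⟨e2, ?_⟩, rfl⟩⟩
      cases e3 : s1B E Z b
      · rfl
      · exfalso
        have e4 : s2B E Z b = true := (s2_iff h hZ).2 ⟨z1, hz1, hn1, hb'⟩
        unfold zB at e2
        rw [e3, e4] at e2
        exact absurd e2 (by decide)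
    · exact ⟨{b}, Finset.singleton_subset_iff.2 hbo, Or.inl ⟨b, ho hbo, sg3_zero.2 e2, rfl⟩⟩
  · exact ⟨{a}, Finset.singleton_subset_iff.2 hao, Or.inl ⟨a, ho hao, sg3_zero.2 e1, rfl⟩⟩

end

theorem feas_iff {E : List (ℕ × ℕ)} {U : Finset ℕ} {W : List ℕ} {J : List (List ℕ)}
    (h : SC E U W J) : Feas (GG E) W.toFinset (Zf J) ↔ coreB E W J = true := by
  rw [coreB_iff (LCtx.toLC h.lc)]
  constructor
  · rintro ⟨o, ho, hd⟩
    have hex : ∀ i : {Z // Z ∈ J}, ∃ s ⊆ o i, IsOpt W.toFinset (sgJ E J) i s := fun i =>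
      h.conv i.2 (ho i).1 (ho i).2
    choose s hs1 hs2 using hex
    exact ⟨s, hs2, fun i j hij => Finset.disjoint_of_subset_left (hs1 i)
      (Finset.disjoint_of_subset_right (hs1 j) (hd i j hij))⟩
  · rintro ⟨o, ho, hd⟩
    exact ⟨o, fun i => h.opt i.2 (ho i), hd⟩

/-- `3P_1`-freeness, as a program -/
def tpB (V : List ℕ) (E : List (ℕ × ℕ)) : Bool :=
  V.all fun x => V.all fun y => V.all fun z =>
    decide (x = y) || (decide (x = z) || (decide (y = z) || (adj E x y || (adj E x z ||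
      adj E y z))))

theorem tpB_iff {V : List ℕ} {E : List (ℕ × ℕ)} : tpB V E = true ↔ TP (GG E) V.toFinset := by
  unfold tpB TP
  simp only [List.all_eq_true, Bool.or_eq_true, adj_iff, decide_eq_true_eq, List.mem_toFinset]
  refine forall_congr' fun x => forall_congr' fun _ => forall_congr' fun y => forall_congr' fun _ =>
    forall_congr' fun u => forall_congr' fun _ => ?_
  tauto

/-- the absence of split terminal sets, as a program -/
def nsB (V : List ℕ) (E : List (ℕ × ℕ)) (Zs : List (List ℕ)) : Bool :=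
  Zs.all fun Z => Z.all fun z => Z.all fun z' => (freeV V Zs).all fun a => (freeV V Zs).all fun b =>
    !adj E z a || (!adj E z' b || (adj E z z' || (adj E z b || (adj E a z' || adj E a b))))

theorem nsB_iff {I : Inst} (hw : WellFormed I) : nsB I.1 I.2.1 I.2.2 = true ↔ NoSplit I := by
  unfold nsB NoSplit
  simp only [List.all_eq_true, Bool.or_eq_true, nadj_iff, adj_iff, mem_freeV]
  constructor
  · intro h Z hZ z z' a b hz hz' ha hb hza hzb
    have := h Z hZ z.1 hz z'.1 hz' a.1 ⟨a.2, ha⟩ b.1 ⟨b.2, hb⟩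
    rw [graph_adj] at hza hzb
    rw [graph_adj, graph_adj, graph_adj, graph_adj]
    tauto
  · intro h Z hZ z hz z' hz' a ha b hb
    have h1 := (hw.2.2 Z hZ).2
    have := h Z hZ ⟨z, h1 z hz⟩ ⟨z', h1 z' hz'⟩ ⟨a, ha.1⟩ ⟨b, hb.1⟩ hz hz' ha.2 hb.2
    rw [graph_adj, graph_adj, graph_adj, graph_adj, graph_adj, graph_adj] at this
    tauto

/-- the whole algorithm -/
def solve (I : Inst) : Bool :=
  wfB I && tpB I.1 I.2.1 && nsB I.1 I.2.1 I.2.2 &&
    coreB I.2.1 (freeV I.1 I.2.2) (discs I.2.1 I.2.2)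

theorem poly_solve : Poly solve := by
  unfold solve wfB tpB nsB nodupB
  fun_prop

theorem main : InPP (fun I : Inst => WellFormed I ∧ Free threeP1 (graph I.1 I.2.1) ∧
    NoSplit I ∧ DCS I) := by
  refine inPP_of poly_solve fun I => ?_
  unfold solve
  rw [Bool.and_eq_true, Bool.and_eq_true, Bool.and_eq_true, wfB_iff, tpB_iff, free3_iff]
  have key : WellFormed I → TP (GG I.2.1) I.1.toFinset → NoSplit I →
      (DCS I ↔ coreB I.2.1 (freeV I.1 I.2.2) (discs I.2.1 I.2.2) = true) := by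
    intro hw hT hN
    rw [dcs_iff hw hT.kp]
    refine feas_iff (U := I.1.toFinset) ⟨lctx hw hT.kp, hT, ?_⟩
    intro Z hZ z hz z' hz' a ha b hb hza hzb
    have hZ' := (List.mem_filter.1 hZ).1
    have h1 := (hw.2.2 Z hZ').2
    rw [mem_freeV] at ha hb
    have := hN Z hZ' ⟨z, h1 z hz⟩ ⟨z', h1 z' hz'⟩ ⟨a, ha.1⟩ ⟨b, hb.1⟩ hz hz' ha.2 hb.2
    rw [graph_adj, graph_adj, graph_adj, graph_adj, graph_adj, graph_adj] at this
    exact this hza hzb
  constructor
  · rintro ⟨hw, hT, hN, hD⟩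
    exact ⟨⟨⟨hw, hT⟩, (nsB_iff hw).2 hN⟩, (key hw hT hN).1 hD⟩
  · rintro ⟨⟨⟨hw, hT⟩, hN⟩, hc⟩
    have hN' := (nsB_iff hw).1 hN
    exact ⟨hw, hT, hN', (key hw hT hN').2 hc⟩

end Pool.Agent.Helper878_mm
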