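import Pool.Agent.Helper878_dcs.Algo

/-!
# The algorithm for `3P_1`-free graphs without split pairs
-/

set_option autoImplicit false

namespace Pool.Agent.Helper878_mm

open Pool.Agent.NPC Pool.Agent.H671R2.SF Pool.Agent.Helper878_dcs

/-- the first vertex of a terminal set -/
def nm (Z : List ℕ) : ℕ := Z.head?.getD 0

/-- the levels -/
def lev (W : List ℕ) : List ℕ := ((0 :: (W ++ W)).zipIdx).map fun p => p.2

/-- `w` sees the class of the first vertex -/
def s1B (E : List (ℕ × ℕ)) (Z : List ℕ) (w : ℕ) : Bool := !missB E Z w (nm Z)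

/-- `w` sees another class -/
def s2B (E : List (ℕ × ℕ)) (Z : List ℕ) (w : ℕ) : Bool :=
  Z.any fun z => !nearB E Z (nm Z) z && !missB E Z w z

/-- `w` sees both classes -/
def zB (E : List (ℕ × ℕ)) (Z : List ℕ) (w : ℕ) : Bool := s1B E Z w && s2B E Z w

/-- `w` and `e` see different classes -/
def oppB (E : List (ℕ × ℕ)) (Z : List ℕ) (w e : ℕ) : Bool :=
  !zB E Z w && !decide (s1B E Z w = s1B E Z e)

/-- the terminal sets not connected by `e` -/
def qB (E : List (ℕ × ℕ)) (J : List (List ℕ)) (e : ℕ) : List (List ℕ) :=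
  J.filter fun Z => !zB E Z e

/-- the edges of the unfolded graph -/
def okB (E : List (ℕ × ℕ)) (n : ℕ) (Z : List ℕ) (w e a b : ℕ) : Bool :=
  (zB E Z w && decide (a + b + 1 = n)) || (oppB E Z w e && decide (a + b + 2 = n))

def nodB (E : List (ℕ × ℕ)) (W : List ℕ) (J : List (List ℕ)) (e : ℕ) : List (ℕ × ℕ) :=
  (((qB E J e).map nm) ++ W) ×ˢ lev W

def lnkB (E : List (ℕ × ℕ)) (W : List ℕ) (J : List (List ℕ)) (e : ℕ) :
    List ((ℕ × ℕ) × (ℕ × ℕ)) :=
  (((qB E J e ×ˢ W) ×ˢ (lev W ×ˢ lev W)).filter fun p =>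
    okB E (2 * W.length + 1) p.1.1 p.1.2 e p.2.1 p.2.2).map fun p =>
      ((nm p.1.1, p.2.1), (p.1.2, p.2.2))

/-- the test for the direction `e` -/
def tstB (E : List (ℕ × ℕ)) (W : List ℕ) (J : List (List ℕ)) (e : ℕ) : Bool :=
  decide ((qB E J e).length * (2 * W.length + 1) + J.length ≤
    (maxM (nodB E W J e) (lnkB E W J e)).length + W.length)

def coreB (E : List (ℕ × ℕ)) (W : List ℕ) (J : List (List ℕ)) : Bool :=
  decide (J.length ≤ W.length) && W.all fun e => tstB E W J e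

section
variable {γ : Type} [TEnc γ] {E : γ → List (ℕ × ℕ)} {V W Z : γ → List ℕ} {J : γ → List (List ℕ)}
  {n u v a b : γ → ℕ}

@[fun_prop]
theorem poly_nm (hZ : Poly Z) : Poly (fun x => nm (Z x)) := by
  unfold nm; fun_prop

@[fun_prop]
theorem poly_lev (hW : Poly W) : Poly (fun x => lev (W x)) := by
  unfold lev; fun_prop

@[fun_prop]
theorem poly_s1B (hE : Poly E) (hZ : Poly Z) (hu : Poly u) :
    Poly (fun x => s1B (E x) (Z x) (u x)) := by
  unfold s1B; fun_prop

@[fun_prop]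
theorem poly_s2B (hE : Poly E) (hZ : Poly Z) (hu : Poly u) :
    Poly (fun x => s2B (E x) (Z x) (u x)) := by
  unfold s2B; fun_prop

@[fun_prop]
theorem poly_zB (hE : Poly E) (hZ : Poly Z) (hu : Poly u) :
    Poly (fun x => zB (E x) (Z x) (u x)) := by
  unfold zB; fun_prop

@[fun_prop]
theorem poly_oppB (hE : Poly E) (hZ : Poly Z) (hu : Poly u) (hv : Poly v) :
    Poly (fun x => oppB (E x) (Z x) (u x) (v x)) := by
  unfold oppB; fun_prop

@[fun_prop]
theorem poly_qB (hE : Poly E) (hJ : Poly J) (hu : Poly u) :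
    Poly (fun x => qB (E x) (J x) (u x)) := by
  unfold qB; fun_prop

@[fun_prop]
theorem poly_okB (hE : Poly E) (hn : Poly n) (hZ : Poly Z) (hu : Poly u) (hv : Poly v)
    (ha : Poly a) (hb : Poly b) :
    Poly (fun x => okB (E x) (n x) (Z x) (u x) (v x) (a x) (b x)) := by
  unfold okB; fun_prop

@[fun_prop]
theorem poly_nodB (hE : Poly E) (hW : Poly W) (hJ : Poly J) (hu : Poly u) :
    Poly (fun x => nodB (E x) (W x) (J x) (u x)) := by
  unfold nodB; fun_prop

@[fun_prop]
theorem poly_lnkB (hE : Poly E) (hW : Poly W) (hJ : Poly J) (hu : Poly u) :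
    Poly (fun x => lnkB (E x) (W x) (J x) (u x)) := by
  unfold lnkB; fun_prop

@[fun_prop]
theorem poly_tstB (hE : Poly E) (hW : Poly W) (hJ : Poly J) (hu : Poly u) :
    Poly (fun x => tstB (E x) (W x) (J x) (u x)) := by
  unfold tstB; fun_prop

@[fun_prop]
theorem poly_coreB (hE : Poly E) (hW : Poly W) (hJ : Poly J) :
    Poly (fun x => coreB (E x) (W x) (J x)) := by
  unfold coreB; fun_prop

end

end Pool.Agent.Helper878_mm
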