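import Mathlib

/-!
# A Hall type theorem with flexible indices

There are mandatory nodes (each needs one element of its neighbourhood) and flexible indices, each
of which needs either one element (single mode) or two elements (pair mode: one from each of two
sets which together cover `D`).
-/

set_option autoImplicit false

namespace Pool.Agent.Helper878_mm

open Finset

variable {α ι : Type} [DecidableEq α] [DecidableEq ι]

/-- the side chosen by a boolean -/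
def sd (b : Bool) : Fin 3 := if b then 1 else 2

/-- what a selection can use -/
def nb (N : ι × Fin 3 → Finset α) (Λ : Finset (ι × Fin 3)) (L : Finset ι) (τ : ι → Bool) :
    Finset α :=
  Λ.biUnion N ∪ (L.biUnion (fun i => N (i, 0)) ∪ L.biUnion (fun i => N (i, sd (τ i))))

structure Core (D E : Finset α) (N : ι × Fin 3 → Finset α) (e : ι × Fin 3 → Bool)
    (S : Finset ι) (Γ : Finset (ι × Fin 3)) : Prop where
  hDE : Disjoint D E
  hS : ∀ i ∈ S, ∀ j, (i, j) ∉ Γ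
  hE : ∀ v ∈ Γ, e v = true → N v ⊆ E
  hD : ∀ v ∈ Γ, e v = false → N v ⊆ D
  hT : ∀ i ∈ S, N (i, 0) ⊆ E
  hAB : ∀ i ∈ S, N (i, 1) ∪ N (i, 2) = D
  he0 : ∀ i ∈ S, e (i, 0) = true
  he1 : ∀ i ∈ S, e (i, 1) = false
  he2 : ∀ i ∈ S, e (i, 2) = false
  hall : ∀ Λ ⊆ Γ, ∀ L ⊆ S, ∀ τ : ι → Bool, Λ.card + L.card ≤ (nb N Λ L τ).card
  sat : ∀ Z ⊆ E, Z.card ≤ (Γ.filter fun v => ¬ Disjoint (N v) Z).card +
    (S.filter fun i => ¬ Disjoint (N (i, 0)) Z).card
  cnt : (Γ.filter fun v => e v = false).card + 2 * (Γ.filter fun v => e v = true).card +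
    2 * S.card ≤ D.card + 2 * E.card

section
variable {D E : Finset α} {N : ι × Fin 3 → Finset α} {e : ι × Fin 3 → Bool} {S : Finset ι}
  {Γ : Finset (ι × Fin 3)}

theorem nb_mem {Λ : Finset (ι × Fin 3)} {L : Finset ι} {τ : ι → Bool} {x : α} :
    x ∈ nb N Λ L τ ↔ (∃ v ∈ Λ, x ∈ N v) ∨ (∃ i ∈ L, x ∈ N (i, 0)) ∨ ∃ i ∈ L, x ∈ N (i, sd (τ i)) := by
  unfold nb
  simp only [mem_union, mem_biUnion]

theorem sd_cover (h : Core D E N e S Γ) {j : ι} (hj : j ∈ S) {b b' : Bool} (hb : b ≠ b') :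
    N (j, sd b) ∪ N (j, sd b') = D := by
  rw [← h.hAB j hj]
  cases b <;> cases b' <;> simp_all [sd, union_comm]

theorem sd_sub (h : Core D E N e S Γ) {j : ι} (hj : j ∈ S) (b : Bool) : N (j, sd b) ⊆ D := by
  rw [← h.hAB j hj]
  cases b
  · exact subset_union_right
  · exact subset_union_left

/-- lower bound for the part in `E` of a set closed under a selection -/
theorem sat_bound (h : Core D E N e S Γ) (X : Finset α) (Λ : Finset (ι × Fin 3)) (L : Finset ι)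
    (hΛΓ : Λ ⊆ Γ) (hLS : L ⊆ S) (hΛ : ∀ v ∈ Λ, N v ⊆ X) (hL : ∀ i ∈ L, N (i, 0) ⊆ X) :
    E.card + (Λ.filter fun v => e v = true).card + L.card ≤
      (X ∩ E).card + (Γ.filter fun v => e v = true).card + S.card := by
  have h1 := h.sat (E \ X) sdiff_subset
  have h2 : (Γ.filter fun v => ¬ Disjoint (N v) (E \ X)) ⊆
      (Γ.filter fun v => e v = true) \ (Λ.filter fun v => e v = true) := by
    intro v hv
    rw [mem_filter] at hv
    rw [mem_sdiff, mem_filter, mem_filter]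
    have hvL : v ∉ Λ := fun hvL => hv.2 (by
      rw [disjoint_left]
      intro x hx hx'
      exact (mem_sdiff.1 hx').2 (hΛ v hvL hx))
    refine ⟨⟨hv.1, ?_⟩, fun h => hvL h.1⟩
    by_contra he
    rw [Bool.not_eq_true] at he
    refine hv.2 ?_
    exact (h.hDE.mono_left (h.hD v hv.1 he)).mono_right sdiff_subset
  have h3 : (S.filter fun i => ¬ Disjoint (N (i, 0)) (E \ X)) ⊆ S \ L := by
    intro i hi
    rw [mem_filter] at hi
    rw [mem_sdiff]
    refine ⟨hi.1, fun hiL => hi.2 ?_⟩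
    rw [disjoint_left]
    intro x hx hx'
    exact (mem_sdiff.1 hx').2 (hL i hiL hx)
  have h2' := card_le_card h2
  have h3' := card_le_card h3
  have h4 : (Λ.filter fun v => e v = true) ⊆ Γ.filter fun v => e v = true :=
    filter_subset_filter _ hΛΓ
  rw [card_sdiff_of_subset h4] at h2'
  rw [card_sdiff_of_subset hLS] at h3'
  have h5 := card_le_card h4
  have h6 := card_le_card hLS
  have h7 : (E \ X).card + (X ∩ E).card = E.card := by
    rw [inter_comm]; exact card_sdiff_add_card_inter E X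
  omega

theorem card_split (Λ : Finset (ι × Fin 3)) :
    (Λ.filter fun v => e v = false).card + (Λ.filter fun v => e v = true).card = Λ.card := by
  have h := card_filter_add_card_filter_not (s := Λ) (fun v => e v = true)
  have h2 : (Λ.filter fun v => ¬ e v = true) = Λ.filter fun v => e v = false := by
    refine filter_congr fun v _ => ?_
    rw [Bool.not_eq_true]
  rw [h2] at h
  omega

/-- two certificates pointing in different directions -/
theorem conflict (h : Core D E N e S Γ) {i : ι} (hi : i ∈ S) {Λ₁ Λ₂ : Finset (ι × Fin 3)}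
    {L₁ L₂ : Finset ι} {X₁ X₂ : Finset α} (hΛ₁ : Λ₁ ⊆ Γ) (hΛ₂ : Λ₂ ⊆ Γ) (hL₁ : L₁ ⊆ S.erase i)
    (hL₂ : L₂ ⊆ S.erase i) (a₁ : ∀ v ∈ Λ₁, N v ⊆ X₁) (a₂ : ∀ v ∈ Λ₂, N v ⊆ X₂)
    (b₁ : ∀ j ∈ L₁, N (j, 0) ⊆ X₁) (b₂ : ∀ j ∈ L₂, N (j, 0) ⊆ X₂) (c : N (i, 0) ⊆ X₁)
    (hD : D ⊆ X₁ ∪ X₂) (hX₁ : X₁.card ≤ Λ₁.card + L₁.card) (hX₂ : X₂.card ≤ Λ₂.card + L₂.card) :
    False := by
  have s1 : L₁ ⊆ S := hL₁.trans (erase_subset _ _)
  have s2 : L₂ ⊆ S := hL₂.trans (erase_subset _ _)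
  have hi' : i ∉ L₁ ∪ L₂ := by
    intro hm
    rcases mem_union.1 hm with hm | hm
    · exact notMem_erase i S (hL₁ hm)
    · exact notMem_erase i S (hL₂ hm)
  have k1 := sat_bound h (X₁ ∪ X₂) (Λ₁ ∪ Λ₂) (insert i (L₁ ∪ L₂)) (union_subset hΛ₁ hΛ₂)
    (insert_subset hi (union_subset s1 s2)) (by
      intro v hv
      rcases mem_union.1 hv with hv | hv
      · exact (a₁ v hv).trans subset_union_left
      · exact (a₂ v hv).trans subset_union_right) (by
      intro j hj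
      rcases mem_insert.1 hj with rfl | hj
      · exact c.trans subset_union_left
      · rcases mem_union.1 hj with hj | hj
        · exact (b₁ j hj).trans subset_union_left
        · exact (b₂ j hj).trans subset_union_right)
  have k2 := sat_bound h (X₁ ∩ X₂) (Λ₁ ∩ Λ₂) (L₁ ∩ L₂) (inter_subset_left.trans hΛ₁)
    (inter_subset_left.trans s1) (fun v hv => subset_inter (a₁ v (mem_inter.1 hv).1)
      (a₂ v (mem_inter.1 hv).2)) (fun j hj => subset_inter (b₁ j (mem_inter.1 hj).1)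
      (b₂ j (mem_inter.1 hj).2))
  rw [card_insert_of_notMem hi'] at k1
  -- the part of the intersection in `D`
  have k3 : ((Λ₁ ∩ Λ₂).filter fun v => e v = false).card ≤ ((X₁ ∩ X₂) ∩ D).card := by
    have hh := h.hall ((Λ₁ ∩ Λ₂).filter fun v => e v = false)
      ((filter_subset _ _).trans (inter_subset_left.trans hΛ₁)) ∅ (empty_subset _) (fun _ => true)
    rw [card_empty, Nat.add_zero] at hh
    refine hh.trans (card_le_card ?_)
    intro x hx
    rw [nb_mem] at hx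
    rcases hx with ⟨v, hv, hx⟩ | ⟨j, hj, _⟩ | ⟨j, hj, _⟩
    · rw [mem_filter, mem_inter] at hv
      rw [mem_inter, mem_inter]
      exact ⟨⟨a₁ v hv.1.1 hx, a₂ v hv.1.2 hx⟩, h.hD v (hΛ₁ hv.1.1) hv.2 hx⟩
    · exact absurd hj (notMem_empty j)
    · exact absurd hj (notMem_empty j)
  have k4 : D.card + ((X₁ ∪ X₂) ∩ E).card ≤ (X₁ ∪ X₂).card := by
    rw [← card_union_of_disjoint (h.hDE.mono_right inter_subset_right)]
    exact card_le_card (union_subset hD inter_subset_left)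
  have k5 : ((X₁ ∩ X₂) ∩ D).card + ((X₁ ∩ X₂) ∩ E).card ≤ (X₁ ∩ X₂).card := by
    rw [← card_union_of_disjoint ((h.hDE.mono_left inter_subset_right).mono_right
      inter_subset_right)]
    exact card_le_card (union_subset inter_subset_left inter_subset_left)
  have k6 := card_union_add_card_inter X₁ X₂
  have k7 := card_union_add_card_inter L₁ L₂
  have k8 := card_union_add_card_inter Λ₁ Λ₂
  have k9 := card_split (e := e) (Λ₁ ∪ Λ₂)
  have k10 := card_split (e := e) (Λ₁ ∩ Λ₂)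
  have k11 : ((Λ₁ ∪ Λ₂).filter fun v => e v = false).card ≤
      (Γ.filter fun v => e v = false).card :=
    card_le_card (filter_subset_filter _ (union_subset hΛ₁ hΛ₂))
  have k12 := h.cnt
  omega

/-- two certificates pointing in the same direction -/
theorem agree (h : Core D E N e S Γ) {i : ι} (hi : i ∈ S) {Λ₁ Λ₂ : Finset (ι × Fin 3)}
    {L₁ L₂ : Finset ι} {τ₁ τ₂ : ι → Bool} {X₁ X₂ : Finset α} (hΛ₁ : Λ₁ ⊆ Γ) (hΛ₂ : Λ₂ ⊆ Γ)
    (hL₁ : L₁ ⊆ S.erase i) (hL₂ : L₂ ⊆ S.erase i) (a₁ : nb N Λ₁ L₁ τ₁ ⊆ X₁)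
    (a₂ : nb N Λ₂ L₂ τ₂ ⊆ X₂) (c₁ : N (i, 0) ⊆ X₁) (c₂ : N (i, sd (τ₂ i)) ⊆ X₂)
    (hag : ∀ j ∈ L₁, j ∈ L₂ → τ₁ j = τ₂ j)
    (hX₁ : X₁.card ≤ Λ₁.card + L₁.card) (hX₂ : X₂.card ≤ Λ₂.card + L₂.card) : False := by
  have s1 : L₁ ⊆ S := hL₁.trans (erase_subset _ _)
  have s2 : L₂ ⊆ S := hL₂.trans (erase_subset _ _)
  have hi1 : i ∉ L₁ := fun hm => notMem_erase i S (hL₁ hm)
  have hi' : i ∉ L₁ ∪ L₂ := by
    intro hm
    rcases mem_union.1 hm with hm | hm
    · exact notMem_erase i S (hL₁ hm)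
    · exact notMem_erase i S (hL₂ hm)
  have k1 := h.hall (Λ₁ ∪ Λ₂) (union_subset hΛ₁ hΛ₂) (insert i (L₁ ∪ L₂))
    (insert_subset hi (union_subset s1 s2)) (fun j => if j ∈ L₁ then τ₁ j else τ₂ j)
  have k2 := h.hall (Λ₁ ∩ Λ₂) (inter_subset_left.trans hΛ₁) (L₁ ∩ L₂)
    (inter_subset_left.trans s1) τ₁
  have m1 : nb N (Λ₁ ∪ Λ₂) (insert i (L₁ ∪ L₂)) (fun j => if j ∈ L₁ then τ₁ j else τ₂ j) ⊆
      X₁ ∪ X₂ := by
    intro x hx
    rw [nb_mem] at hx
    rw [mem_union]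
    rcases hx with ⟨v, hv, hx⟩ | ⟨j, hj, hx⟩ | ⟨j, hj, hx⟩
    · rcases mem_union.1 hv with hv | hv
      · exact Or.inl (a₁ (nb_mem.2 (Or.inl ⟨v, hv, hx⟩)))
      · exact Or.inr (a₂ (nb_mem.2 (Or.inl ⟨v, hv, hx⟩)))
    · rcases mem_insert.1 hj with rfl | hj
      · exact Or.inl (c₁ hx)
      · rcases mem_union.1 hj with hj | hj
        · exact Or.inl (a₁ (nb_mem.2 (Or.inr (Or.inl ⟨j, hj, hx⟩))))
        · exact Or.inr (a₂ (nb_mem.2 (Or.inr (Or.inl ⟨j, hj, hx⟩))))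
    · by_cases hj1 : j ∈ L₁
      · rw [if_pos hj1] at hx
        exact Or.inl (a₁ (nb_mem.2 (Or.inr (Or.inr ⟨j, hj1, hx⟩))))
      · rw [if_neg hj1] at hx
        rcases mem_insert.1 hj with rfl | hj
        · exact Or.inr (c₂ hx)
        · rcases mem_union.1 hj with hj | hj
          · exact absurd hj hj1
          · exact Or.inr (a₂ (nb_mem.2 (Or.inr (Or.inr ⟨j, hj, hx⟩))))
  have m2 : nb N (Λ₁ ∩ Λ₂) (L₁ ∩ L₂) τ₁ ⊆ X₁ ∩ X₂ := by
    intro x hx
    rw [nb_mem] at hx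
    rw [mem_inter]
    rcases hx with ⟨v, hv, hx⟩ | ⟨j, hj, hx⟩ | ⟨j, hj, hx⟩
    · rw [mem_inter] at hv
      exact ⟨a₁ (nb_mem.2 (Or.inl ⟨v, hv.1, hx⟩)), a₂ (nb_mem.2 (Or.inl ⟨v, hv.2, hx⟩))⟩
    · rw [mem_inter] at hj
      exact ⟨a₁ (nb_mem.2 (Or.inr (Or.inl ⟨j, hj.1, hx⟩))),
        a₂ (nb_mem.2 (Or.inr (Or.inl ⟨j, hj.2, hx⟩)))⟩
    · rw [mem_inter] at hj
      refine ⟨a₁ (nb_mem.2 (Or.inr (Or.inr ⟨j, hj.1, hx⟩))), ?_⟩
      rw [hag j hj.1 hj.2] at hx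
      exact a₂ (nb_mem.2 (Or.inr (Or.inr ⟨j, hj.2, hx⟩)))
  have k3 := card_le_card m1
  have k4 := card_le_card m2
  rw [card_insert_of_notMem hi'] at k1
  have k6 := card_union_add_card_inter X₁ X₂
  have k7 := card_union_add_card_inter L₁ L₂
  have k8 := card_union_add_card_inter Λ₁ Λ₂
  omega

end

end Pool.Agent.Helper878_mm
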