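import Pool.Agent.Helper878_mm.Trunc
import Pool.Agent.Helper878_dcs.Match

/-!
# The matching test
-/

set_option autoImplicit false
set_option linter.unusedSectionVars false

namespace Pool.Agent.Helper878_mm

open Finset Pool.Agent.H671R2.SF Pool.Agent.Helper878_dcs

theorem adjB_of_mem {α : Type} [DecidableEq α] {L : List (α × α)} {a b : α} (h : (a, b) ∈ L) :
    adjB L a b = true := by
  unfold adjB
  rw [Bool.or_eq_true]
  exact Or.inl (decide_eq_true h)

theorem cover_bound {α : Type} [DecidableEq α] {V : List α} {L M : List (α × α)}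
    (hM : IsM V L M) (C : Finset α) (hC : ∀ x y, (x, y) ∈ L → x ∈ C ∨ y ∈ C) :
    M.length ≤ C.card := by
  have hnd := hM.2.1
  have hex : ∀ e : α × α, ∃ v, e ∈ M → v ∈ C ∧ (v = e.1 ∨ v = e.2) := by
    intro e
    by_cases he : e ∈ M
    · have h1 := hM.1 e he
      unfold adjB at h1
      rw [Bool.or_eq_true, decide_eq_true_eq, decide_eq_true_eq] at h1
      rcases h1 with h1 | h1
      · rcases hC _ _ h1 with h2 | h2
        · exact ⟨e.1, fun _ => ⟨h2, Or.inl rfl⟩⟩
        · exact ⟨e.2, fun _ => ⟨h2, Or.inr rfl⟩⟩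
      · rcases hC _ _ h1 with h2 | h2
        · exact ⟨e.2, fun _ => ⟨h2, Or.inr rfl⟩⟩
        · exact ⟨e.1, fun _ => ⟨h2, Or.inl rfl⟩⟩
    · exact ⟨e.1, fun h => absurd h he⟩
  choose c hc using hex
  rw [← List.toFinset_card_of_nodup (nodup_of_ends hnd)]
  refine card_le_card_of_injOn c ?_ ?_
  · intro e he
    exact (hc e (List.mem_toFinset.1 (mem_coe.1 he))).1
  · intro e he f hf hef
    have he' := List.mem_toFinset.1 (mem_coe.1 he)
    have hf' := List.mem_toFinset.1 (mem_coe.1 hf)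
    exact edge_eq_of_mem hnd he' hf' (hc e he').2 (by rw [hef]; exact (hc f hf').2)

variable {ι : Type} [DecidableEq ι] [Fintype ι]

/-- the unfolded graph of the direction `e` -/
structure Tst (W : Finset ℕ) (σ : ι → ℕ → Fin 3) (nm : ι → ℕ) (B e : ℕ) (V : List (ℕ × ℕ))
    (L : List ((ℕ × ℕ) × (ℕ × ℕ))) : Prop where
  nd : V.Nodup
  mV : ∀ v, v ∈ V ↔ v.2 < B ∧ ((∃ i, σ i e ≠ 0 ∧ v.1 = nm i) ∨ v.1 ∈ W)
  mL : ∀ x y, (x, y) ∈ L ↔ ∃ i, σ i e ≠ 0 ∧ x.1 = nm i ∧ y.1 ∈ W ∧ x.2 < B ∧ y.2 < B ∧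
    ((σ i y.1 = 0 ∧ x.2 + y.2 + 1 = B) ∨ (σ i y.1 ≠ 0 ∧ σ i y.1 ≠ σ i e ∧ x.2 + y.2 + 2 = B))
  inj : Function.Injective nm
  nW : ∀ i, nm i ∉ W

variable {W : Finset ℕ} {σ : ι → ℕ → Fin 3} {nm : ι → ℕ} {B e : ℕ} {V : List (ℕ × ℕ)}
  {L : List ((ℕ × ℕ) × (ℕ × ℕ))}

theorem Tst.lf (h : Tst W σ nm B e V L) : LF L := by
  rintro ⟨x, y⟩ hxy hne
  obtain ⟨i, _, h1, h2, _⟩ := (h.mL x y).1 hxy
  have h3 : x = y := hne
  rw [← h3, h1] at h2
  exact h.nW i h2

theorem test_of_sol (h : Tst W σ nm B e V L) (hB : 1 ≤ B) {o : ι → Finset ℕ}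
    (ho : ∀ i, IsOpt W σ i (o i)) (hd : ∀ i j, i ≠ j → Disjoint (o i) (o j)) :
    (univ.filter fun i => σ i e ≠ 0).card * B + Fintype.card ι ≤ (maxM V L).length + W.card := by
  obtain ⟨hM, hmax⟩ := maxM_spec h.nd h.lf
  have hoW : ∀ i, o i ⊆ W := by
    intro i
    rcases ho i with ⟨c, hc, _, h2⟩ | ⟨a, ha, b, hb, _, _, h2⟩
    · rw [h2]; exact singleton_subset_iff.2 hc
    · rw [h2]; exact insert_subset ha (singleton_subset_iff.2 hb)
  have hex : ∀ i, ∃ w ω, σ i e ≠ 0 → w ∈ o i ∧ ω + (o i).card = B + 1 ∧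
      ((σ i w = 0 ∧ ω = B) ∨ (σ i w ≠ 0 ∧ σ i w ≠ σ i e ∧ ω + 1 = B)) := by
    intro i
    rcases ho i with ⟨c, hc, h1, h2⟩ | ⟨a, ha, b, hb, h1, h1', h2⟩
    · exact ⟨c, B, fun _ => ⟨by rw [h2]; exact mem_singleton_self c, by rw [h2, card_singleton],
        Or.inl ⟨h1, rfl⟩⟩⟩
    · have hab : a ≠ b := by
        rintro rfl
        rw [h1] at h1'
        exact absurd h1' (by decide)
      have hc : (o i).card = 2 := by rw [h2, card_pair hab]
      rcases fin3 (σ i e) with h0 | h0 | h0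
      · exact ⟨a, B, fun h => absurd h0 h⟩
      · refine ⟨b, B - 1, fun _ => ⟨by rw [h2]; simp, by omega, Or.inr ⟨?_, ?_, by omega⟩⟩⟩
        · rw [h1']; decide
        · rw [h1', h0]; decide
      · refine ⟨a, B - 1, fun _ => ⟨by rw [h2]; simp, by omega, Or.inr ⟨?_, ?_, by omega⟩⟩⟩
        · rw [h1]; decide
        · rw [h1, h0]; decide
  choose w ω hw using hex
  set Q : Finset ι := univ.filter fun i => σ i e ≠ 0 with hQ
  have mQ : ∀ i, i ∈ Q ↔ σ i e ≠ 0 := fun i => by rw [hQ, mem_filter]; simp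
  set S : Finset (Σ _ : ι, ℕ) := Q.sigma fun i => range (ω i) with hS
  have hlen := hmax (S.toList.map fun x => ((nm x.1, x.2), (w x.1, ω x.1 - 1 - x.2))) ⟨?_, ?_, ?_⟩
  · rw [List.length_map, length_toList, hS, card_sigma] at hlen
    have e1 : ∑ i ∈ Q, (range (ω i)).card = ∑ i ∈ Q, ω i :=
      sum_congr rfl fun i _ => card_range _
    rw [e1] at hlen
    have e2 : ∑ i ∈ Q, ω i + ∑ i ∈ Q, (o i).card = Q.card * (B + 1) := by
      rw [← sum_add_distrib, ← smul_eq_mul, ← sum_const]
      exact sum_congr rfl fun i hi => (hw i ((mQ i).1 hi)).2.1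
    have e3 : (univ \ Q).card ≤ ∑ i ∈ univ \ Q, (o i).card := by
      rw [card_eq_sum_ones]
      refine sum_le_sum fun i _ => ?_
      rw [Nat.succ_le_iff, card_pos]
      rcases ho i with ⟨c, _, _, h2⟩ | ⟨a, _, b, _, _, _, h2⟩
      · rw [h2]; exact singleton_nonempty c
      · rw [h2]; exact insert_nonempty a _
    have e4 : ∑ i ∈ univ \ Q, (o i).card + ∑ i ∈ Q, (o i).card = ∑ i, (o i).card :=
      sum_sdiff (subset_univ Q)
    have e5 : ∑ i, (o i).card ≤ W.card := by
      rw [← card_biUnion (fun i _ j _ hij => hd i j hij)]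
      refine card_le_card ?_
      intro x hx
      obtain ⟨i, _, hx⟩ := mem_biUnion.1 hx
      exact hoW i hx
    have e6 : (univ \ Q).card + Q.card = Fintype.card ι := by
      rw [card_sdiff_of_subset (subset_univ _), card_univ]
      have := card_le_card (subset_univ Q)
      rw [card_univ] at this
      omega
    rw [Nat.mul_add, Nat.mul_one] at e2
    omega
  · intro x hx
    rw [List.mem_map] at hx
    obtain ⟨⟨i, a⟩, hia, rfl⟩ := hx
    rw [mem_toList, hS, mem_sigma, mem_range] at hia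
    obtain ⟨hi, ha⟩ := hia
    have hwi := hw i ((mQ i).1 hi)
    refine adjB_of_mem ?_
    rw [h.mL]
    refine ⟨i, (mQ i).1 hi, rfl, hoW i hwi.1, ?_, ?_, ?_⟩
    · dsimp only at ha ⊢; omega
    · dsimp only at ha ⊢; omega
    · dsimp only at ha ⊢
      rcases hwi.2.2 with ⟨h1, h2⟩ | ⟨h1, h2, h3⟩
      · exact Or.inl ⟨h1, by omega⟩
      · exact Or.inr ⟨h1, h2, by omega⟩
  · have hne : ∀ i j, σ j e ≠ 0 → nm i ≠ w j := by
      intro i j hj hh
      exact h.nW i (hh ▸ hoW j (hw j hj).1)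
    refine ends_nodup_of _ _ (nodup_toList S) ?_ ?_
    · rintro ⟨i, a⟩ hia
      rw [mem_toList, hS, mem_sigma] at hia
      intro hh
      exact hne i i ((mQ i).1 hia.1) (Prod.mk.inj hh).1
    · rintro ⟨i, a⟩ hia ⟨j, b⟩ hjb hij
      rw [mem_toList, hS, mem_sigma, mem_range] at hia hjb
      have hi := (mQ i).1 hia.1
      have hj := (mQ j).1 hjb.1
      have ha := hia.2
      have hb := hjb.2
      dsimp only at ha hb
      refine ⟨?_, ?_, ?_, ?_⟩
      · intro hh
        have h1 := h.inj (Prod.mk.inj hh).1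
        have h2 := (Prod.mk.inj hh).2
        dsimp only at h1 h2
        subst h1
        exact hij (by rw [h2])
      · intro hh
        exact hne i j hj (Prod.mk.inj hh).1
      · intro hh
        exact hne j i hi (Prod.mk.inj hh).1.symm
      · intro hh
        have h1 := (Prod.mk.inj hh).1
        have h2 := (Prod.mk.inj hh).2
        dsimp only at h1 h2
        by_cases hij' : i = j
        · subst hij'
          have : a = b := by omega
          exact hij (by rw [this])
        · refine disjoint_left.1 (hd i j hij') (hw i hi).1 ?_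
          rw [h1]
          exact (hw j hj).1
  · intro v hv
    unfold ends at hv
    rw [List.mem_flatMap] at hv
    obtain ⟨x, hx, hv⟩ := hv
    rw [List.mem_map] at hx
    obtain ⟨⟨i, a⟩, hia, rfl⟩ := hx
    rw [mem_toList, hS, mem_sigma, mem_range] at hia
    have hi := (mQ i).1 hia.1
    have ha := hia.2
    dsimp only at ha
    have hwi := hw i hi
    rw [h.mV]
    simp only [List.mem_cons, List.not_mem_nil, or_false] at hv
    rcases hv with rfl | rfl
    · exact ⟨by dsimp only; omega, Or.inl ⟨i, hi, rfl⟩⟩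
    · exact ⟨by dsimp only; omega, Or.inr (hoW i hwi.1)⟩

theorem bound_of_test (hk : Fintype.card ι ≤ W.card)
    (ht : ∀ e ∈ W, ∃ V L, Tst W σ nm (2 * W.card + 1) e V L ∧
      (univ.filter fun i => σ i e ≠ 0).card * (2 * W.card + 1) + Fintype.card ι ≤
        (maxM V L).length + W.card)
    (y : ℕ → ℕ) (m : ι → ℕ) (hdf : DF W σ y m) (hy : ∀ w ∈ W, y w ≤ 2 * W.card + 1) :
    ∑ i, m i ≤ ∑ w ∈ W, y w := by
  obtain ⟨e, he, he1⟩ := hdf.ex
  obtain ⟨V, L, h, hle⟩ := ht e he
  obtain ⟨hM, -⟩ := maxM_spec h.nd h.lf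
  set B := 2 * W.card + 1 with hB
  set Q : Finset ι := univ.filter fun i => σ i e ≠ 0 with hQ
  have mQ : ∀ i, i ∈ Q ↔ σ i e ≠ 0 := fun i => by rw [hQ, mem_filter]; simp
  -- raise to at least one
  set m' : ι → ℕ := fun i => max (m i) 1 with hm'
  have hdf' : DF W σ y m' := by
    refine ⟨hdf.one, hdf.ex, fun i c hc hz => ?_, fun i a ha b hb h1 h2 => ?_⟩
    · exact max_le (hdf.zero i c hc hz) (hdf.one c hc)
    · refine max_le (hdf.pair i a ha b hb h1 h2) ?_
      have := hdf.one a ha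
      omega
  have hm1 : ∀ i, 1 ≤ m' i := fun i => le_max_right _ _
  have hmm : ∑ i, m i ≤ ∑ i, m' i := sum_le_sum fun i _ => le_max_left _ _
  -- opposite elements
  have hopp : ∀ i w, w ∈ W → σ i e ≠ 0 → σ i w ≠ 0 → σ i w ≠ σ i e → m' i ≤ 1 + y w := by
    intro i w hw h0 h1 h2
    rcases fin3 (σ i e) with e1 | e1 | e1
    · exact absurd e1 h0
    · rcases fin3 (σ i w) with e2 | e2 | e2
      · exact absurd e2 h1
      · exact absurd (e2.trans e1.symm) h2
      · have := hdf'.pair i e he w hw e1 e2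
        omega
    · rcases fin3 (σ i w) with e2 | e2 | e2
      · exact absurd e2 h1
      · have := hdf'.pair i w hw e he e2 e1
        omega
      · exact absurd (e2.trans e1.symm) h2
  refine hmm.trans ?_
  by_cases hbig : ∃ i0 ∈ Q, B + 1 < m' i0
  · exfalso
    obtain ⟨i0, hi0, hbig⟩ := hbig
    have hc := cover_bound hM (((Q.erase i0).image nm) ×ˢ range B) (by
      intro x z hxz
      obtain ⟨i, h1, h2, h3, h4, h5, h6⟩ := (h.mL x z).1 hxz
      left
      rw [mem_product, mem_image, mem_range]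
      refine ⟨⟨i, mem_erase.2 ⟨?_, (mQ i).2 h1⟩, h2.symm⟩, h4⟩
      rintro rfl
      have hyz := hy z.1 h3
      rcases h6 with ⟨h7, _⟩ | ⟨h7, h8, _⟩
      · have := hdf'.zero i z.1 h3 h7
        omega
      · have := hopp i z.1 h3 h1 h7 h8
        omega)
    rw [card_product, card_image_of_injective _ h.inj, card_range] at hc
    have h1 := card_erase_add_one hi0
    have h2 : Q.card * B = (Q.erase i0).card * B + B := by rw [← h1]; ring
    omega
  · push Not at hbig
    have hc := cover_bound hM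
      (((Q.sigma fun i => range (B + 1 - m' i)).image fun x => (nm x.1, x.2)) ∪
        ((W.sigma fun w => range (y w - 1)).image fun x => (x.1, x.2))) (by
      intro x z hxz
      obtain ⟨i, h1, h2, h3, h4, h5, h6⟩ := (h.mL x z).1 hxz
      have hyz := hy z.1 h3
      have hyz1 := hdf.one z.1 h3
      have hb := hbig i ((mQ i).2 h1)
      by_cases hx : x.2 < B + 1 - m' i
      · left
        rw [mem_union, mem_image]
        left
        exact ⟨⟨i, x.2⟩, mem_sigma.2 ⟨(mQ i).2 h1, mem_range.2 hx⟩, Prod.ext h2.symm rfl⟩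
      · right
        rw [mem_union, mem_image, mem_image]
        right
        refine ⟨⟨z.1, z.2⟩, mem_sigma.2 ⟨h3, mem_range.2 ?_⟩, rfl⟩
        rcases h6 with ⟨h7, h8⟩ | ⟨h7, h8, h9⟩
        · have := hdf'.zero i z.1 h3 h7
          dsimp only
          omega
        · have := hopp i z.1 h3 h1 h7 h8
          dsimp only
          omega)
    have hc1 := card_union_le ((Q.sigma fun i => range (B + 1 - m' i)).image
      fun x => (nm x.1, x.2)) ((W.sigma fun w => range (y w - 1)).image fun x => (x.1, x.2))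
    have hc2 : ((Q.sigma fun i => range (B + 1 - m' i)).image fun x => (nm x.1, x.2)).card ≤
        ∑ i ∈ Q, (B + 1 - m' i) := by
      refine card_image_le.trans ?_
      rw [card_sigma]
      exact (sum_congr rfl fun i _ => card_range _).le
    have hc3 : ((W.sigma fun w => range (y w - 1)).image fun x => (x.1, x.2)).card ≤
        ∑ w ∈ W, (y w - 1) := by
      refine card_image_le.trans ?_
      rw [card_sigma]
      exact (sum_congr rfl fun i _ => card_range _).le
    have e1 : ∑ i ∈ Q, (B + 1 - m' i) + ∑ i ∈ Q, m' i = Q.card * (B + 1) := by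
      rw [← sum_add_distrib, ← smul_eq_mul, ← sum_const]
      refine sum_congr rfl fun i hi => ?_
      have := hbig i hi
      omega
    have e2 : ∑ w ∈ W, (y w - 1) + W.card = ∑ w ∈ W, y w := by
      rw [card_eq_sum_ones, ← sum_add_distrib]
      refine sum_congr rfl fun w hw => ?_
      have := hdf.one w hw
      omega
    have e3 : ∑ i ∈ univ \ Q, m' i ≤ (univ \ Q).card := by
      rw [card_eq_sum_ones]
      refine sum_le_sum fun i hi => ?_
      have h0 : σ i e = 0 := by
        by_contra hn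
        exact (mem_sdiff.1 hi).2 ((mQ i).2 hn)
      have := hdf'.zero i e he h0
      omega
    have e4 : ∑ i ∈ univ \ Q, m' i + ∑ i ∈ Q, m' i = ∑ i, m' i := sum_sdiff (subset_univ Q)
    have e6 : (univ \ Q).card + Q.card = Fintype.card ι := by
      rw [card_sdiff_of_subset (subset_univ _), card_univ]
      have := card_le_card (subset_univ Q)
      rw [card_univ] at this
      omega
    rw [Nat.mul_add, Nat.mul_one] at e1
    omega

end Pool.Agent.Helper878_mm
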