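import Pool.Agent.Helper878_mm.Algo
import Pool.Agent.Helper878_mm.Test

/-!
# Correctness of the algorithm on lists
-/

set_option autoImplicit false
set_option linter.unusedSectionVars false

namespace Pool.Agent.Helper878_mm

open Finset Pool.Agent.H671R2.SF Pool.Agent.Helper878_dcs

variable {E : List (ℕ × ℕ)} {W : List ℕ} {J : List (List ℕ)}

/-- the type of a nonterminal with respect to a terminal set -/
def sg3 (E : List (ℕ × ℕ)) (Z : List ℕ) (w : ℕ) : Fin 3 :=
  if zB E Z w = true then 0 else if s1B E Z w = true then 1 else 2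

theorem sg3_zero {Z : List ℕ} {w : ℕ} : sg3 E Z w = 0 ↔ zB E Z w = true := by
  unfold sg3
  by_cases h : zB E Z w = true
  · rw [if_pos h]; exact ⟨fun _ => h, fun _ => rfl⟩
  · rw [if_neg h]
    refine ⟨fun h0 => ?_, fun h' => absurd h' h⟩
    split_ifs at h0 <;> exact absurd h0 (by decide)

theorem sg3_one {Z : List ℕ} {w : ℕ} :
    sg3 E Z w = 1 ↔ zB E Z w = false ∧ s1B E Z w = true := by
  unfold sg3
  cases h : zB E Z w
  · rw [if_neg (by decide)]
    cases h' : s1B E Z w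
    · rw [if_neg (by decide)]; simp
    · rw [if_pos rfl]; simp
  · rw [if_pos rfl]; simp

theorem sg3_two {Z : List ℕ} {w : ℕ} :
    sg3 E Z w = 2 ↔ zB E Z w = false ∧ s1B E Z w = false := by
  unfold sg3
  cases h : zB E Z w
  · rw [if_neg (by decide)]
    cases h' : s1B E Z w
    · rw [if_neg (by decide)]; simp
    · rw [if_pos rfl]; simp
  · rw [if_pos rfl]; simp

theorem opp_iff {Z : List ℕ} {w e : ℕ} (he : sg3 E Z e ≠ 0) :
    oppB E Z w e = true ↔ sg3 E Z w ≠ 0 ∧ sg3 E Z w ≠ sg3 E Z e := by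
  have he' : zB E Z e = false := by
    rw [Ne, sg3_zero, Bool.not_eq_true] at he; exact he
  unfold oppB
  rw [Bool.and_eq_true]
  by_cases h : zB E Z w = true
  · have := sg3_zero.2 h
    simp [h, this]
  · rw [Bool.not_eq_true] at h
    cases h1 : s1B E Z w <;> cases h2 : s1B E Z e
    · have e1 := sg3_two.2 ⟨h, h1⟩
      have e2 := sg3_two.2 ⟨he', h2⟩
      simp [e1, e2]
    · have e1 := sg3_two.2 ⟨h, h1⟩
      have e2 := sg3_one.2 ⟨he', h2⟩
      simp [e1, e2, h]
    · have e1 := sg3_one.2 ⟨h, h1⟩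
      have e2 := sg3_two.2 ⟨he', h2⟩
      simp [e1, e2, h]
    · have e1 := sg3_one.2 ⟨h, h1⟩
      have e2 := sg3_one.2 ⟨he', h2⟩
      simp [e1, e2]

theorem mem_lev {a : ℕ} : a ∈ lev W ↔ a < 2 * W.length + 1 := by
  unfold lev
  rw [List.mem_map]
  constructor
  · rintro ⟨⟨x, i⟩, h, rfl⟩
    rw [List.mem_zipIdx_iff_getElem?] at h
    by_contra hn
    rw [List.getElem?_eq_none (by
      simp only [List.length_cons, List.length_append]
      dsimp only at hn
      omega)] at h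
    exact absurd h (by simp)
  · intro h
    have hl : a < (0 :: (W ++ W)).length := by
      simp only [List.length_cons, List.length_append]; omega
    exact ⟨((0 :: (W ++ W))[a], a), by
      rw [List.mem_zipIdx_iff_getElem?, List.getElem?_eq_getElem hl], rfl⟩

theorem nodup_lev : (lev W).Nodup := by
  unfold lev
  rw [List.zipIdx_map_snd]
  exact List.nodup_range'

/-- what the algorithm needs to know -/
structure LC (W : List ℕ) (J : List (List ℕ)) : Prop where
  hWn : W.Nodup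
  hJn : J.Nodup
  hne : ∀ Z ∈ J, Z ≠ []
  hJW : ∀ Z ∈ J, ∀ z ∈ Z, z ∉ W
  hdis : ∀ Z ∈ J, ∀ Z' ∈ J, Z ≠ Z' → ∀ z ∈ Z, z ∉ Z'

theorem nm_mem {Z : List ℕ} (h : Z ≠ []) : nm Z ∈ Z := by
  unfold nm
  cases Z with
  | nil => exact absurd rfl h
  | cons a l => simp

theorem LC.nm_inj (h : LC W J) {Z Z' : List ℕ} (hZ : Z ∈ J) (hZ' : Z' ∈ J) (he : nm Z = nm Z') :
    Z = Z' := by
  by_contra hne
  refine h.hdis Z hZ Z' hZ' hne (nm Z) (nm_mem (h.hne Z hZ)) ?_
  rw [he]
  exact nm_mem (h.hne Z' hZ')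

/-- the types of the indices -/
def sgJ (E : List (ℕ × ℕ)) (J : List (List ℕ)) (i : {Z // Z ∈ J}) (w : ℕ) : Fin 3 := sg3 E i.1 w

theorem LC.tst (h : LC W J) (e : ℕ) :
    Tst W.toFinset (sgJ E J) (fun i => nm i.1) (2 * W.toFinset.card + 1) e (nodB E W J e)
      (lnkB E W J e) := by
  have hq : ∀ Z, Z ∈ qB E J e ↔ Z ∈ J ∧ sg3 E Z e ≠ 0 := by
    intro Z
    unfold qB
    rw [List.mem_filter, Ne, sg3_zero, Bool.not_eq_true, Bool.not_eq_true']
  have hc : W.toFinset.card = W.length := List.toFinset_card_of_nodup h.hWn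
  rw [hc]
  refine ⟨?_, ?_, ?_, ?_, ?_⟩
  · unfold nodB
    refine List.Nodup.product ?_ nodup_lev
    rw [List.nodup_append]
    refine ⟨?_, h.hWn, ?_⟩
    · refine List.Nodup.map_on ?_ (h.hJn.filter _)
      intro Z hZ Z' hZ' he
      exact h.nm_inj ((hq Z).1 hZ).1 ((hq Z').1 hZ').1 he
    · intro a ha b hb hab
      obtain ⟨Z, hZ, rfl⟩ := List.mem_map.1 ha
      have hZJ := ((hq Z).1 hZ).1
      exact h.hJW Z hZJ _ (nm_mem (h.hne Z hZJ)) (hab ▸ hb)
  · rintro ⟨v, a⟩
    unfold nodB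
    rw [List.mem_product, mem_lev, List.mem_append, List.mem_map, List.mem_toFinset, and_comm]
    refine and_congr_right fun _ => or_congr_left ?_
    constructor
    · rintro ⟨Z, hZ, rfl⟩
      exact ⟨⟨Z, ((hq Z).1 hZ).1⟩, ((hq Z).1 hZ).2, rfl⟩
    · rintro ⟨i, hi, hv⟩
      exact ⟨i.1, (hq i.1).2 ⟨i.2, hi⟩, hv.symm⟩
  · rintro ⟨x, a⟩ ⟨y, b⟩
    unfold lnkB
    rw [List.mem_map]
    constructor
    · rintro ⟨⟨⟨Z, w⟩, ⟨a', b'⟩⟩, hm, he⟩
      rw [List.mem_filter, List.mem_product, List.mem_product, List.mem_product, mem_lev,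
        mem_lev] at hm
      obtain ⟨⟨⟨hZ, hw⟩, ha, hb⟩, hok⟩ := hm
      dsimp only at hZ hw ha hb hok he
      have h1 := (Prod.mk.inj he).1
      have h2 := (Prod.mk.inj he).2
      obtain ⟨rfl, rfl⟩ := Prod.mk.inj h1
      obtain ⟨rfl, rfl⟩ := Prod.mk.inj h2
      refine ⟨⟨Z, ((hq Z).1 hZ).1⟩, ((hq Z).1 hZ).2, rfl, List.mem_toFinset.2 hw, ha, hb, ?_⟩
      unfold okB at hok
      rw [Bool.or_eq_true, Bool.and_eq_true, Bool.and_eq_true, decide_eq_true_eq,
        decide_eq_true_eq, opp_iff ((hq Z).1 hZ).2, and_assoc] at hok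
      rcases hok with ⟨h3, h4⟩ | ⟨h3, h4, h5⟩
      · exact Or.inl ⟨sg3_zero.2 h3, h4⟩
      · exact Or.inr ⟨h3, h4, h5⟩
    · rintro ⟨i, hi, h1, h2, h3, h4, h5⟩
      dsimp only at h1 h2 h3 h4 h5
      rw [List.mem_toFinset] at h2
      refine ⟨((i.1, y), (a, b)), ?_, ?_⟩
      · rw [List.mem_filter, List.mem_product, List.mem_product, List.mem_product, mem_lev,
          mem_lev]
        refine ⟨⟨⟨(hq i.1).2 ⟨i.2, hi⟩, h2⟩, h3, h4⟩, ?_⟩
        unfold okB
        dsimp only
        rw [Bool.or_eq_true, Bool.and_eq_true, Bool.and_eq_true, decide_eq_true_eq,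
          decide_eq_true_eq, opp_iff hi, and_assoc]
        rcases h5 with ⟨h5, h6⟩ | ⟨h5, h6, h7⟩
        · exact Or.inl ⟨sg3_zero.1 h5, h6⟩
        · exact Or.inr ⟨h5, h6, h7⟩
      · dsimp only
        rw [h1]
  · intro i j hij
    exact Subtype.ext (h.nm_inj i.2 j.2 hij)
  · intro i hi
    rw [List.mem_toFinset] at hi
    exact h.hJW i.1 i.2 _ (nm_mem (h.hne i.1 i.2)) hi

theorem card_J (hJn : J.Nodup) : Fintype.card {Z // Z ∈ J} = J.length := by
  rw [Fintype.card_of_subtype J.toFinset (fun x => List.mem_toFinset),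
    List.toFinset_card_of_nodup hJn]

theorem card_q (hJn : J.Nodup) (e : ℕ) :
    ((univ : Finset {Z // Z ∈ J}).filter fun i => sgJ E J i e ≠ 0).card = (qB E J e).length := by
  rw [← List.toFinset_card_of_nodup (show (qB E J e).Nodup from hJn.filter _),
    ← card_map (Function.Embedding.subtype _)]
  congr 1
  ext Z
  rw [mem_map, List.mem_toFinset]
  unfold qB
  rw [List.mem_filter]
  constructor
  · rintro ⟨i, hi, rfl⟩
    rw [mem_filter] at hi
    refine ⟨i.2, ?_⟩
    have h2 := hi.2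
    unfold sgJ at h2
    rw [Ne, sg3_zero, Bool.not_eq_true] at h2
    rw [Bool.not_eq_true']
    exact h2
  · rintro ⟨hZ, h2⟩
    refine ⟨⟨Z, hZ⟩, ?_, rfl⟩
    rw [mem_filter]
    refine ⟨mem_univ _, ?_⟩
    unfold sgJ
    rw [Ne, sg3_zero, Bool.not_eq_true]
    rw [Bool.not_eq_true'] at h2
    exact h2

/-- The algorithm decides whether there are pairwise disjoint options. -/
theorem coreB_iff (h : LC W J) : coreB E W J = true ↔
    ∃ o : {Z // Z ∈ J} → Finset ℕ, (∀ i, IsOpt W.toFinset (sgJ E J) i (o i)) ∧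
      ∀ i j, i ≠ j → Disjoint (o i) (o j) := by
  have hc : W.toFinset.card = W.length := List.toFinset_card_of_nodup h.hWn
  unfold coreB
  rw [Bool.and_eq_true, decide_eq_true_eq, List.all_eq_true]
  have ht : ∀ e, tstB E W J e = true ↔
      ((univ : Finset {Z // Z ∈ J}).filter fun i => sgJ E J i e ≠ 0).card *
        (2 * W.toFinset.card + 1) + Fintype.card {Z // Z ∈ J} ≤
          (maxM (nodB E W J e) (lnkB E W J e)).length + W.toFinset.card := by
    intro e
    unfold tstB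
    rw [decide_eq_true_eq, card_q h.hJn, card_J h.hJn, hc]
  constructor
  · rintro ⟨h1, h2⟩
    by_cases hW : W.toFinset.Nonempty
    · refine min_max' hW ?_
      refine bound_of_test (nm := fun i : {Z // Z ∈ J} => nm i.1) ?_ ?_
      · rw [card_J h.hJn, hc]; exact h1
      · intro e he
        exact ⟨_, _, h.tst e, (ht e).1 (h2 e (List.mem_toFinset.1 he))⟩
    · rw [not_nonempty_iff_eq_empty] at hW
      have hJ0 : J.length = 0 := by
        rw [hW, card_empty] at hc
        omega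
      have hJ : J = [] := List.eq_nil_of_length_eq_zero hJ0
      subst hJ
      exact ⟨fun _ => ∅, fun i => absurd i.2 (by simp), fun i => absurd i.2 (by simp)⟩
  · rintro ⟨o, ho, hd⟩
    refine ⟨?_, fun e he => (ht e).2 (test_of_sol (h.tst e) (by omega) ho hd)⟩
    rw [← card_J h.hJn, ← hc]
    have hoW : ∀ i, o i ⊆ W.toFinset := by
      intro i
      rcases ho i with ⟨c, hc, _, h2⟩ | ⟨a, ha, b, hb, _, _, h2⟩
      · rw [h2]; exact singleton_subset_iff.2 hc
      · rw [h2]; exact insert_subset ha (singleton_subset_iff.2 hb)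
    have e5 : ∑ i, (o i).card ≤ W.toFinset.card := by
      rw [← card_biUnion (fun i _ j _ hij => hd i j hij)]
      refine card_le_card ?_
      intro x hx
      obtain ⟨i, _, hx⟩ := mem_biUnion.1 hx
      exact hoW i hx
    refine le_trans ?_ e5
    rw [← card_univ, card_eq_sum_ones]
    refine sum_le_sum fun i _ => ?_
    rw [Nat.succ_le_iff, card_pos]
    rcases ho i with ⟨c, _, _, h2⟩ | ⟨a, _, b, _, _, _, h2⟩
    · rw [h2]; exact singleton_nonempty c
    · rw [h2]; exact insert_nonempty a _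

end Pool.Agent.Helper878_mm
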