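import Pool.Agent.Helper878_mm.Step

/-!
# The min-max theorem
-/

set_option autoImplicit false
set_option linter.unusedSectionVars false

namespace Pool.Agent.Helper878_mm

open Finset

variable {α ι : Type} [DecidableEq α] [DecidableEq ι] [Fintype ι]

/-- `(y, m)` is a feasible dual solution with minimum level one -/
structure DF (W : Finset α) (σ : ι → α → Fin 3) (y : α → ℕ) (m : ι → ℕ) : Prop where
  one : ∀ w ∈ W, 1 ≤ y w
  ex : ∃ w ∈ W, y w = 1
  zero : ∀ i, ∀ c ∈ W, σ i c = 0 → m i ≤ y c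
  pair : ∀ i, ∀ a ∈ W, ∀ b ∈ W, σ i a = 1 → σ i b = 2 → m i ≤ y a + y b

/-- a feasible dual solution of minimum slack -/
structure Opt (W : Finset α) (σ : ι → α → Fin 3) (y : α → ℕ) (m : ι → ℕ) : Prop where
  df : DF W σ y m
  slack : ∑ i, m i ≤ ∑ w ∈ W, y w
  min : ∀ y' m', DF W σ y' m' → ∑ w ∈ W, y w + ∑ i, m' i ≤ ∑ w ∈ W, y' w + ∑ i, m i

omit [DecidableEq α] [DecidableEq ι] in
theorem exists_opt {W : Finset α} {σ : ι → α → Fin 3} (hW : W.Nonempty)
    (H : ∀ y m, DF W σ y m → ∑ i, m i ≤ ∑ w ∈ W, y w) : ∃ y m, Opt W σ y m := by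
  have hex : ∃ n : ℕ, ∃ y m, DF W σ y m ∧ ∑ w ∈ W, y w = n + ∑ i, m i := by
    have hdf : DF W σ (fun _ => 1) (fun _ : ι => 1) := by
      obtain ⟨w, hw⟩ := hW
      exact ⟨fun _ _ => le_refl 1, ⟨w, hw, rfl⟩, fun _ _ _ _ => le_refl 1,
        fun _ _ _ _ _ _ _ => by omega⟩
    have := H _ _ hdf
    exact ⟨_, _, _, hdf, (Nat.sub_add_cancel this).symm⟩
  classical
  obtain ⟨y, m, h1, h2⟩ := Nat.find_spec hex
  refine ⟨y, m, h1, H y m h1, fun y' m' h' => ?_⟩
  have h3 := H y' m' h'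
  have h4 := Nat.find_min' hex ⟨y', m', h', (Nat.sub_add_cancel h3).symm⟩
  omega

section
variable {W : Finset α} {σ : ι → α → Fin 3} {y : α → ℕ} {m : ι → ℕ}

/-- the lowest level -/
def Dl (W : Finset α) (y : α → ℕ) : Finset α := W.filter fun w => y w = 1

/-- the higher levels -/
def El (W : Finset α) (y : α → ℕ) : Finset α := W.filter fun w => 2 ≤ y w

/-- the flexible indices -/
def Sf (W : Finset α) (σ : ι → α → Fin 3) (y : α → ℕ) (m : ι → ℕ) : Finset ι :=
  univ.filter fun i => m i = 2 ∧ (∃ a ∈ Dl W y, σ i a = 1) ∧ ∃ b ∈ Dl W y, σ i b = 2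

/-- tight neighbourhoods -/
def Nt (W : Finset α) (σ : ι → α → Fin 3) (y : α → ℕ) (m : ι → ℕ) (v : ι × Fin 3) : Finset α :=
  if v.2 = 0 then W.filter fun w => (σ v.1 w = 0 ∧ y w = m v.1) ∨
    (σ v.1 w ≠ 0 ∧ y w + 1 = m v.1 ∧ ∀ d ∈ Dl W y, σ v.1 d ≠ 0 ∧ σ v.1 d ≠ σ v.1 w)
  else (Dl W y).filter fun w => σ v.1 w = v.2

theorem mem_N0 {i : ι} {w : α} : w ∈ Nt W σ y m (i, 0) ↔ w ∈ W ∧ ((σ i w = 0 ∧ y w = m i) ∨
    (σ i w ≠ 0 ∧ y w + 1 = m i ∧ ∀ d ∈ Dl W y, σ i d ≠ 0 ∧ σ i d ≠ σ i w)) := by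
  unfold Nt
  rw [if_pos rfl, mem_filter]

theorem mem_N1 {i : ι} {w : α} : w ∈ Nt W σ y m (i, 1) ↔ w ∈ Dl W y ∧ σ i w = 1 := by
  unfold Nt
  rw [if_neg (show ¬ ((1 : Fin 3) = 0) by decide), mem_filter]

theorem mem_N2 {i : ι} {w : α} : w ∈ Nt W σ y m (i, 2) ↔ w ∈ Dl W y ∧ σ i w = 2 := by
  unfold Nt
  rw [if_neg (show ¬ ((2 : Fin 3) = 0) by decide), mem_filter]

theorem mem_Dl {w : α} : w ∈ Dl W y ↔ w ∈ W ∧ y w = 1 := mem_filter

theorem mem_El {w : α} : w ∈ El W y ↔ w ∈ W ∧ 2 ≤ y w := mem_filter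

theorem mem_Sf {i : ι} : i ∈ Sf W σ y m ↔
    m i = 2 ∧ (∃ a ∈ Dl W y, σ i a = 1) ∧ ∃ b ∈ Dl W y, σ i b = 2 := by
  unfold Sf
  rw [mem_filter]
  exact ⟨fun h => h.2, fun h => ⟨mem_univ _, h⟩⟩

/-- the mandatory nodes -/
def Gm (W : Finset α) (σ : ι → α → Fin 3) (y : α → ℕ) (m : ι → ℕ) : Finset (ι × Fin 3) :=
  (univ \ Sf W σ y m).image fun i => (i, 0)

theorem mem_Gm {v : ι × Fin 3} : v ∈ Gm W σ y m ↔ v.1 ∉ Sf W σ y m ∧ v.2 = 0 := by
  unfold Gm
  rw [mem_image]
  constructor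
  · rintro ⟨i, hi, rfl⟩
    exact ⟨(mem_sdiff.1 hi).2, rfl⟩
  · rintro ⟨h1, h2⟩
    exact ⟨v.1, mem_sdiff.2 ⟨mem_univ _, h1⟩, Prod.ext rfl h2.symm⟩

/-- the kind of a node -/
def em (m : ι → ℕ) (v : ι × Fin 3) : Bool := decide (v.2 = 0) && !decide (m v.1 = 1)

theorem fin3 (x : Fin 3) : x = 0 ∨ x = 1 ∨ x = 2 := by
  fin_cases x <;> simp

theorem m_pos (h : Opt W σ y m) (i : ι) : 1 ≤ m i := by
  by_contra hn
  have h0 : m i = 0 := by omega
  have h1 := h.min y (Function.update m i 1) ⟨h.df.one, h.df.ex, fun j c hc hz => by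
      by_cases hj : j = i
      · subst hj
        rw [Function.update_self]
        exact h.df.one c hc
      · rw [Function.update_of_ne hj]
        exact h.df.zero j c hc hz, fun j a ha b hb h1 h2 => by
      by_cases hj : j = i
      · subst hj
        rw [Function.update_self]
        have := h.df.one a ha
        omega
      · rw [Function.update_of_ne hj]
        exact h.df.pair j a ha b hb h1 h2⟩
  have h2 : ∑ j, Function.update m i 1 j = ∑ j, m j + 1 := by
    rw [← add_sum_erase univ _ (mem_univ i), ← add_sum_erase univ m (mem_univ i),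
      Function.update_self, h0]
    have : ∑ j ∈ univ.erase i, Function.update m i 1 j = ∑ j ∈ univ.erase i, m j :=
      sum_congr rfl fun j hj => Function.update_of_ne (mem_erase.1 hj).1 _ _
    omega
  omega

/-- raising some levels and some indices -/
theorem raise (h : Opt W σ y m) (X : Finset α) (P : Finset ι) (hX : X ⊆ W)
    (hd : ∃ d ∈ Dl W y, d ∉ X)
    (h0 : ∀ i ∈ P, ∀ c ∈ W, σ i c = 0 → y c = m i → c ∈ X)
    (h2 : ∀ i ∈ P, ∀ a ∈ W, ∀ b ∈ W, σ i a = 1 → σ i b = 2 → y a + y b = m i → a ∈ X ∨ b ∈ X) :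
    P.card ≤ X.card := by
  obtain ⟨d, hd1, hd2⟩ := hd
  rw [mem_Dl] at hd1
  have h1 := h.min (fun w => y w + if w ∈ X then 1 else 0) (fun i => m i + if i ∈ P then 1 else 0)
    ⟨fun w hw => by have := h.df.one w hw; omega, ⟨d, hd1.1, by simp [hd1.2, hd2]⟩,
    fun i c hc hz => by
      have e1 := h.df.zero i c hc hz
      by_cases hi : i ∈ P
      · by_cases e2 : y c = m i
        · simp [hi, h0 i hi c hc hz e2, e2]
        · simp only [hi, if_true]
          omega
      · simp only [hi, if_false]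
        omega,
    fun i a ha b hb h1 h2' => by
      have e1 := h.df.pair i a ha b hb h1 h2'
      by_cases hi : i ∈ P
      · by_cases e2 : y a + y b = m i
        · rcases h2 i hi a ha b hb h1 h2' e2 with e3 | e3
          · simp only [hi, e3, if_true]
            omega
          · simp only [hi, e3, if_true]
            omega
        · simp only [hi, if_true]
          omega
      · simp only [hi, if_false]
        omega⟩
  rw [sum_add_distrib, sum_add_distrib, sum_boole, sum_boole] at h1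
  have e1 : (univ.filter fun i => i ∈ P) = P := by ext; simp
  have e2 : (W.filter fun w => w ∈ X) = X := by
    ext w
    rw [mem_filter]
    exact ⟨fun h => h.2, fun h => ⟨hX h, h⟩⟩
  rw [e1, e2] at h1
  simp only [Nat.cast_id] at h1
  omega

/-- lowering some levels and some indices -/
theorem lower (h : Opt W σ y m) (Z : Finset α) (P : Finset ι) (hZ : Z ⊆ El W y)
    (h0 : ∀ i, i ∉ P → ∀ c ∈ W, σ i c = 0 → m i ≤ y c - if c ∈ Z then 1 else 0)
    (h2 : ∀ i, i ∉ P → ∀ a ∈ W, ∀ b ∈ W, σ i a = 1 → σ i b = 2 →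
      m i ≤ (y a - if a ∈ Z then 1 else 0) + (y b - if b ∈ Z then 1 else 0))
    (h3 : ∀ i ∈ P, ∀ a ∈ W, ∀ b ∈ W, σ i a = 1 → σ i b = 2 →
      m i ≤ (y a - if a ∈ Z then 1 else 0) + (y b - if b ∈ Z then 1 else 0) + 1)
    (hne : (Dl W y).Nonempty) :
    Z.card ≤ P.card := by
  obtain ⟨d, hd1⟩ := hne
  rw [mem_Dl] at hd1
  have hZ2 : ∀ w ∈ Z, 2 ≤ y w := fun w hw => (mem_El.1 (hZ hw)).2
  have hdZ : d ∉ Z := fun hm => by have := hZ2 d hm; omega
  have h1 := h.min (fun w => y w - if w ∈ Z then 1 else 0) (fun i => m i - if i ∈ P then 1 else 0)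
    ⟨fun w hw => by
      have := h.df.one w hw
      by_cases hwZ : w ∈ Z
      · have := hZ2 w hwZ
        simp only [hwZ, if_true]; omega
      · simp only [hwZ, if_false]; omega, ⟨d, hd1.1, by simp [hd1.2, hdZ]⟩,
    fun i c hc hz => by
      have e1 := h.df.zero i c hc hz
      by_cases hi : i ∈ P
      · simp only [hi, if_true]
        by_cases hcZ : c ∈ Z
        · simp only [hcZ, if_true]; omega
        · simp only [hcZ, if_false]; omega
      · simp only [hi, if_false]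
        have := h0 i hi c hc hz
        omega,
    fun i a ha b hb h1 h2' => by
      by_cases hi : i ∈ P
      · have := h3 i hi a ha b hb h1 h2'
        simp only [hi, if_true]
        omega
      · have := h2 i hi a ha b hb h1 h2'
        simp only [hi, if_false]
        omega⟩
  have e1 : ∑ w ∈ W, (y w - if w ∈ Z then 1 else 0) + Z.card = ∑ w ∈ W, y w := by
    have : ∑ w ∈ W, (if w ∈ Z then 1 else 0) = Z.card := by
      rw [sum_boole]
      have e2 : (W.filter fun w => w ∈ Z) = Z := by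
        ext w
        rw [mem_filter]
        exact ⟨fun h => h.2, fun h => ⟨(mem_El.1 (hZ h)).1, h⟩⟩
      rw [e2]; simp
    rw [← this, ← sum_add_distrib]
    refine sum_congr rfl fun w hw => ?_
    have := h.df.one w hw
    split_ifs <;> omega
  have e2 : ∑ i, (m i - if i ∈ P then 1 else 0) + P.card = ∑ i, m i := by
    have : ∑ i, (if i ∈ P then 1 else 0) = P.card := by
      rw [sum_boole]
      have e2 : (univ.filter fun i => i ∈ P) = P := by ext; simp
      rw [e2]; simp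
    rw [← this, ← sum_add_distrib]
    refine sum_congr rfl fun i _ => ?_
    have := m_pos h i
    split_ifs <;> omega
  omega

/-- below level `m i` the element `d` of `Dl` decides -/
theorem side1 (h : Opt W σ y m) {i : ι} {d b : α} (hd : d ∈ Dl W y) (hb : b ∈ W)
    (h1 : σ i d ≠ 0) (h2 : σ i b ≠ 0) (h3 : σ i d ≠ σ i b) : m i ≤ 1 + y b := by
  rw [mem_Dl] at hd
  rcases fin3 (σ i d) with e | e | e
  · exact absurd e h1
  · rcases fin3 (σ i b) with e' | e' | e'
    · exact absurd e' h2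
    · exact absurd (e.trans e'.symm) h3
    · have := h.df.pair i d hd.1 b hb e e'
      omega
  · rcases fin3 (σ i b) with e' | e' | e'
    · exact absurd e' h2
    · have := h.df.pair i b hb d hd.1 e' e
      omega
    · exact absurd (e.trans e'.symm) h3

theorem nozero (h : Opt W σ y m) {i : ι} (hm : m i ≠ 1) {d : α} (hd : d ∈ Dl W y) :
    σ i d ≠ 0 := by
  intro h0
  rw [mem_Dl] at hd
  have := h.df.zero i d hd.1 h0
  have := m_pos h i
  omega

/-- outside the flexible indices the lowest level is one-sided -/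
theorem onesided (h : Opt W σ y m) {i : ι} (hm : m i ≠ 1) (hS : i ∉ Sf W σ y m) {d d' : α}
    (hd : d ∈ Dl W y) (hd' : d' ∈ Dl W y) : σ i d = σ i d' := by
  by_contra hne
  have n1 := nozero h hm hd
  have n2 := nozero h hm hd'
  have h1 := side1 h hd (mem_Dl.1 hd').1 n1 n2 hne
  rw [(mem_Dl.1 hd').2] at h1
  have h2 := m_pos h i
  refine hS (mem_Sf.2 ⟨by omega, ?_⟩)
  rcases fin3 (σ i d) with e | e | e
  · exact absurd e n1
  · rcases fin3 (σ i d') with e' | e' | e'
    · exact absurd e' n2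
    · exact absurd (e.trans e'.symm) hne
    · exact ⟨⟨d, hd, e⟩, ⟨d', hd', e'⟩⟩
  · rcases fin3 (σ i d') with e' | e' | e'
    · exact absurd e' n2
    · exact ⟨⟨d', hd', e'⟩, ⟨d, hd, e⟩⟩
    · exact absurd (e.trans e'.symm) hne

/-- a tight pair of an index which is not flexible -/
theorem tight_pair (h : Opt W σ y m) {i : ι} (hS : i ∉ Sf W σ y m) {a b : α} (ha : a ∈ W)
    (hb : b ∈ W) (h1 : σ i a = 1) (h2 : σ i b = 2) (ht : y a + y b = m i) :
    (y a = 1 ∧ b ∈ Nt W σ y m (i, 0)) ∨ (y b = 1 ∧ a ∈ Nt W σ y m (i, 0)) := by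
  have ya := h.df.one a ha
  have yb := h.df.one b hb
  have hm : m i ≠ 1 := by omega
  obtain ⟨d, hd, hd1⟩ := h.df.ex
  have hdD : d ∈ Dl W y := mem_Dl.2 ⟨hd, hd1⟩
  have n0 := nozero h hm hdD
  have na : σ i a ≠ 0 := by rw [h1]; decide
  have nb' : σ i b ≠ 0 := by rw [h2]; decide
  rcases fin3 (σ i d) with e | e | e
  · exact absurd e n0
  · left
    have h3 := side1 h hdD hb n0 nb' (by rw [e, h2]; decide)
    refine ⟨by omega, mem_N0.2 ⟨hb, Or.inr ⟨nb', by omega, fun d' hd' => ?_⟩⟩⟩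
    refine ⟨nozero h hm hd', ?_⟩
    rw [onesided h hm hS hd' hdD, e, h2]; decide
  · right
    have h3 := side1 h hdD ha n0 na (by rw [e, h1]; decide)
    refine ⟨by omega, mem_N0.2 ⟨ha, Or.inr ⟨na, by omega, fun d' hd' => ?_⟩⟩⟩
    refine ⟨nozero h hm hd', ?_⟩
    rw [onesided h hm hS hd' hdD, e, h1]; decide

theorem N0_sub_El (h : Opt W σ y m) {i : ι} (hm : m i ≠ 1) : Nt W σ y m (i, 0) ⊆ El W y := by
  intro w hw
  rw [mem_N0] at hw
  have h1 := m_pos h i
  have h2 := h.df.one w hw.1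
  rw [mem_El]
  refine ⟨hw.1, ?_⟩
  rcases hw.2 with ⟨_, h3⟩ | ⟨_, h3, h4⟩
  · omega
  · by_contra hn
    exact (h4 w (mem_Dl.2 ⟨hw.1, by omega⟩)).2 rfl

theorem N0_sub_Dl (h : Opt W σ y m) {i : ι} (hm : m i = 1) : Nt W σ y m (i, 0) ⊆ Dl W y := by
  intro w hw
  rw [mem_N0] at hw
  have h2 := h.df.one w hw.1
  rw [mem_Dl]
  refine ⟨hw.1, ?_⟩
  rcases hw.2 with ⟨_, h3⟩ | ⟨_, h3, _⟩
  · omega
  · omega

theorem disj_DE : Disjoint (Dl W y) (El W y) := by
  rw [disjoint_left]
  intro w h1 h2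
  rw [mem_Dl] at h1
  rw [mem_El] at h2
  omega

theorem card_Gm_filter (P : ι → Prop) [DecidablePred P] :
    ((Gm W σ y m).filter fun v => P v.1).card =
      ((univ \ Sf W σ y m).filter fun i => P i).card := by
  unfold Gm
  rw [filter_image, card_image_of_injOn]
  intro a _ b _ hab
  exact (Prod.mk.inj hab).1

theorem sat_all (h : Opt W σ y m) (Z : Finset α) (hZ : Z ⊆ El W y) :
    Z.card ≤ ((Gm W σ y m).filter fun v => ¬ Disjoint (Nt W σ y m v) Z).card +
      ((Sf W σ y m).filter fun i => ¬ Disjoint (Nt W σ y m (i, 0)) Z).card := by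
  have hne : (Dl W y).Nonempty := by
    obtain ⟨d, hd, hd1⟩ := h.df.ex
    exact ⟨d, mem_Dl.2 ⟨hd, hd1⟩⟩
  obtain ⟨d, hdD⟩ := hne
  have hmd := mem_Dl.1 hdD
  have hZ2 : ∀ w ∈ Z, w ∈ W ∧ 2 ≤ y w := fun w hw => mem_El.1 (hZ hw)
  have key := lower h Z (univ.filter fun i => ¬ Disjoint (Nt W σ y m (i, 0)) Z) hZ
  have hnm : ∀ i, i ∉ (univ.filter fun i => ¬ Disjoint (Nt W σ y m (i, 0)) Z) → ∀ w ∈ Z,
      w ∉ Nt W σ y m (i, 0) := by
    intro i hi w hw hwN
    rw [mem_filter] at hi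
    push Not at hi
    exact disjoint_left.1 (hi (mem_univ i)) hwN hw
  -- pairs
  have hpair : ∀ i, ∀ a ∈ W, ∀ b ∈ W, σ i a = 1 → σ i b = 2 →
      m i ≤ (y a - if a ∈ Z then 1 else 0) + (y b - if b ∈ Z then 1 else 0) ∨
      (m i ≤ (y a - if a ∈ Z then 1 else 0) + (y b - if b ∈ Z then 1 else 0) + 1 ∧
        ¬ Disjoint (Nt W σ y m (i, 0)) Z) := by
    intro i a ha b hb h1 h2
    have e1 := h.df.pair i a ha b hb h1 h2
    have ya := h.df.one a ha
    have yb := h.df.one b hb
    by_cases hm : m i = 1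
    · left
      by_cases haZ : a ∈ Z
      · have := (hZ2 a haZ).2
        simp only [haZ, if_true]; omega
      · simp only [haZ, if_false]; omega
    by_cases hSf : i ∈ Sf W σ y m
    · -- `m i = 2`
      have hm2 := (mem_Sf.1 hSf).1
      left
      by_cases haZ : a ∈ Z
      · have h3 := (hZ2 a haZ).2
        by_cases hbZ : b ∈ Z
        · have h4 := (hZ2 b hbZ).2
          simp only [haZ, hbZ, if_true]; omega
        · simp only [haZ, hbZ, if_true, if_false]; omega
      · by_cases hbZ : b ∈ Z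
        · have h4 := (hZ2 b hbZ).2
          simp only [haZ, hbZ, if_true, if_false]; omega
        · simp only [haZ, hbZ, if_false]; omega
    have n0 := nozero h hm hdD
    have na : σ i a ≠ 0 := by rw [h1]; decide
    have nb' : σ i b ≠ 0 := by rw [h2]; decide
    have meet : ∀ w ∈ Z, w ∈ Nt W σ y m (i, 0) → ¬ Disjoint (Nt W σ y m (i, 0)) Z :=
      fun w hw hwN hd => disjoint_left.1 hd hwN hw
    by_cases haZ : a ∈ Z
    · have h3 := (hZ2 a haZ).2
      by_cases hbZ : b ∈ Z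
      · have h4 := (hZ2 b hbZ).2
        simp only [haZ, hbZ, if_true]
        rcases fin3 (σ i d) with e | e | e
        · exact absurd e n0
        · have h5 := side1 h hdD hb n0 nb' (by rw [e, h2]; decide)
          by_cases h6 : m i = 1 + y b
          · right
            refine ⟨by omega, meet b hbZ (mem_N0.2 ⟨hb, Or.inr ⟨nb', by omega, fun d' hd' => ?_⟩⟩)⟩
            refine ⟨nozero h hm hd', ?_⟩
            rw [onesided h hm hSf hd' hdD, e, h2]; decide
          · left; omega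
        · have h5 := side1 h hdD ha n0 na (by rw [e, h1]; decide)
          by_cases h6 : m i = 1 + y a
          · right
            refine ⟨by omega, meet a haZ (mem_N0.2 ⟨ha, Or.inr ⟨na, by omega, fun d' hd' => ?_⟩⟩)⟩
            refine ⟨nozero h hm hd', ?_⟩
            rw [onesided h hm hSf hd' hdD, e, h1]; decide
          · left; omega
      · simp only [haZ, hbZ, if_true, if_false]
        by_cases h6 : y a + y b = m i
        · right
          refine ⟨by omega, ?_⟩
          rcases tight_pair h hSf ha hb h1 h2 h6 with ⟨h7, _⟩ | ⟨_, h8⟩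
          · omega
          · exact meet a haZ h8
        · left; omega
    · by_cases hbZ : b ∈ Z
      · have h4 := (hZ2 b hbZ).2
        simp only [haZ, hbZ, if_true, if_false]
        by_cases h6 : y a + y b = m i
        · right
          refine ⟨by omega, ?_⟩
          rcases tight_pair h hSf ha hb h1 h2 h6 with ⟨_, h8⟩ | ⟨h7, _⟩
          · exact meet b hbZ h8
          · omega
        · left; omega
      · left
        simp only [haZ, hbZ, if_false]; omega
  have hc := key (by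
      intro i hi c hc hz
      have e1 := h.df.zero i c hc hz
      by_cases hcZ : c ∈ Z
      · simp only [hcZ, if_true]
        have : y c ≠ m i := fun he => hnm i hi c hcZ (mem_N0.2 ⟨hc, Or.inl ⟨hz, he⟩⟩)
        omega
      · simp only [hcZ, if_false]; omega)
    (by
      intro i hi a ha b hb h1 h2
      rcases hpair i a ha b hb h1 h2 with h3 | ⟨_, h4⟩
      · exact h3
      · exact absurd (mem_filter.2 ⟨mem_univ i, h4⟩) hi)
    (by
      intro i hi a ha b hb h1 h2
      rcases hpair i a ha b hb h1 h2 with h3 | ⟨h3, _⟩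
      · omega
      · exact h3)
    ⟨d, hdD⟩
  refine hc.trans ?_
  have e1 : ((Gm W σ y m).filter fun v => ¬ Disjoint (Nt W σ y m v) Z) =
      ((Gm W σ y m).filter fun v => ¬ Disjoint (Nt W σ y m (v.1, 0)) Z) := by
    refine filter_congr fun v hv => ?_
    have : v = (v.1, 0) := Prod.ext rfl (mem_Gm.1 hv).2
    rw [← this]
  rw [e1, card_Gm_filter (fun i => ¬ Disjoint (Nt W σ y m (i, 0)) Z),
    ← card_union_of_disjoint]
  · refine card_le_card ?_
    intro i hi
    rw [mem_filter] at hi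
    rw [mem_union, mem_filter, mem_filter, mem_sdiff]
    by_cases hs : i ∈ Sf W σ y m
    · exact Or.inr ⟨hs, hi.2⟩
    · exact Or.inl ⟨⟨mem_univ i, hs⟩, hi.2⟩
  · rw [disjoint_left]
    intro i h1 h2
    exact (mem_sdiff.1 (mem_filter.1 h1).1).2 (mem_filter.1 h2).1

end

end Pool.Agent.Helper878_mm
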