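import Pool.Agent.Helper878_mm.MM

/-!
# The min-max theorem, second part
-/

set_option autoImplicit false
set_option linter.unusedSectionVars false

namespace Pool.Agent.Helper878_mm

open Finset

variable {α ι : Type} [DecidableEq α] [DecidableEq ι] [Fintype ι]
variable {W : Finset α} {σ : ι → α → Fin 3} {y : α → ℕ} {m : ι → ℕ}

theorem card_le_W (hW : W.Nonempty) (H : ∀ y m, DF W σ y m → ∑ i, m i ≤ ∑ w ∈ W, y w) :
    Fintype.card ι ≤ W.card := by
  obtain ⟨w, hw⟩ := hW
  have := H (fun _ => 1) (fun _ => 1) ⟨fun _ _ => le_refl 1, ⟨w, hw, rfl⟩,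
    fun _ _ _ _ => le_refl 1, fun _ _ _ _ _ _ _ => by omega⟩
  simpa using this

theorem em_true {v : ι × Fin 3} : em m v = true ↔ v.2 = 0 ∧ m v.1 ≠ 1 := by
  unfold em
  simp

theorem em_false {v : ι × Fin 3} : em m v = false ↔ (v.2 = 0 → m v.1 = 1) := by
  unfold em
  simp

theorem Nt_sub (v : ι × Fin 3) : Nt W σ y m v ⊆ W := by
  unfold Nt
  split_ifs
  · exact filter_subset _ _
  · exact (filter_subset _ _).trans (filter_subset _ _)

theorem nb_sub (Λ : Finset (ι × Fin 3)) (L : Finset ι) (τ : ι → Bool) :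
    nb (Nt W σ y m) Λ L τ ⊆ W := by
  intro x hx
  rw [nb_mem] at hx
  rcases hx with ⟨v, _, hx⟩ | ⟨i, _, hx⟩ | ⟨i, _, hx⟩
  · exact Nt_sub _ hx
  · exact Nt_sub _ hx
  · exact Nt_sub _ hx

theorem hall_all (h : Opt W σ y m) (hc : Fintype.card ι ≤ W.card) (Λ : Finset (ι × Fin 3))
    (hΛ : Λ ⊆ Gm W σ y m) (L : Finset ι) (hL : L ⊆ Sf W σ y m) (τ : ι → Bool) :
    Λ.card + L.card ≤ (nb (Nt W σ y m) Λ L τ).card := by
  have hinj : Set.InjOn Prod.fst (Λ : Set (ι × Fin 3)) := by
    intro v hv w hw hvw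
    exact Prod.ext hvw ((mem_Gm.1 (hΛ hv)).2.trans (mem_Gm.1 (hΛ hw)).2.symm)
  have hc1 : (Λ.image Prod.fst).card = Λ.card := card_image_of_injOn hinj
  have hdis : Disjoint (Λ.image Prod.fst) L := by
    rw [disjoint_left]
    intro i h1 h2
    obtain ⟨v, hv, rfl⟩ := mem_image.1 h1
    exact (mem_Gm.1 (hΛ hv)).1 (hL h2)
  have h0 : ∀ i ∈ Λ.image Prod.fst ∪ L, ∀ x ∈ Nt W σ y m (i, 0),
      x ∈ nb (Nt W σ y m) Λ L τ := by
    intro i hi x hx
    rcases mem_union.1 hi with hi | hi
    · obtain ⟨v, hv, rfl⟩ := mem_image.1 hi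
      have hv0 : v = (v.1, 0) := Prod.ext rfl (mem_Gm.1 (hΛ hv)).2
      refine nb_mem.2 (Or.inl ⟨v, hv, ?_⟩)
      rw [hv0]
      exact hx
    · exact nb_mem.2 (Or.inr (Or.inl ⟨i, hi, hx⟩))
  by_cases hD : ∃ d ∈ Dl W y, d ∉ nb (Nt W σ y m) Λ L τ
  · have key := raise h (nb (Nt W σ y m) Λ L τ) (Λ.image Prod.fst ∪ L) (nb_sub _ _ _) hD
      (fun i hi c hcW hz he => h0 i hi c (mem_N0.2 ⟨hcW, Or.inl ⟨hz, he⟩⟩)) (by
        intro i hi a ha b hb h1 h2 ht
        by_cases hS : i ∈ Sf W σ y m
        · have hiL : i ∈ L := by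
            rcases mem_union.1 hi with hi | hi
            · obtain ⟨v, hv, rfl⟩ := mem_image.1 hi
              exact absurd hS (mem_Gm.1 (hΛ hv)).1
            · exact hi
          have hm := (mem_Sf.1 hS).1
          have ya := h.df.one a ha
          have yb := h.df.one b hb
          cases hτ : τ i
          · right
            refine nb_mem.2 (Or.inr (Or.inr ⟨i, hiL, ?_⟩))
            rw [hτ]
            exact mem_N2.2 ⟨mem_Dl.2 ⟨hb, by omega⟩, h2⟩
          · left
            refine nb_mem.2 (Or.inr (Or.inr ⟨i, hiL, ?_⟩))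
            rw [hτ]
            exact mem_N1.2 ⟨mem_Dl.2 ⟨ha, by omega⟩, h1⟩
        · rcases tight_pair h hS ha hb h1 h2 ht with ⟨_, h3⟩ | ⟨_, h3⟩
          · exact Or.inr (h0 i hi b h3)
          · exact Or.inl (h0 i hi a h3))
    rw [card_union_of_disjoint hdis, hc1] at key
    exact key
  · push Not at hD
    set X := nb (Nt W σ y m) Λ L τ with hX
    have h1 := sat_all h (El W y \ X) sdiff_subset
    have h2 : ((Gm W σ y m).filter fun v => ¬ Disjoint (Nt W σ y m v) (El W y \ X)) ⊆
        ((Gm W σ y m).filter fun v => em m v = true) \ (Λ.filter fun v => em m v = true) := by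
      intro v hv
      rw [mem_filter] at hv
      rw [mem_sdiff, mem_filter, mem_filter]
      have hvL : v ∉ Λ := fun hvL => hv.2 (by
        rw [disjoint_left]
        intro x hx hx'
        exact (mem_sdiff.1 hx').2 (nb_mem.2 (Or.inl ⟨v, hvL, hx⟩)))
      refine ⟨⟨hv.1, ?_⟩, fun h => hvL h.1⟩
      by_contra he
      rw [Bool.not_eq_true, em_false] at he
      have hv0 := (mem_Gm.1 hv.1).2
      refine hv.2 ?_
      have hve : v = (v.1, 0) := Prod.ext rfl hv0
      rw [hve]
      exact (disj_DE.mono_left (N0_sub_Dl h (he hv0))).mono_right sdiff_subset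
    have h3 : ((Sf W σ y m).filter fun i => ¬ Disjoint (Nt W σ y m (i, 0)) (El W y \ X)) ⊆
        (Sf W σ y m) \ L := by
      intro i hi
      rw [mem_filter] at hi
      rw [mem_sdiff]
      refine ⟨hi.1, fun hiL => hi.2 ?_⟩
      rw [disjoint_left]
      intro x hx hx'
      exact (mem_sdiff.1 hx').2 (nb_mem.2 (Or.inr (Or.inl ⟨i, hiL, hx⟩)))
    have h2' := card_le_card h2
    have h3' := card_le_card h3
    have h4 : (Λ.filter fun v => em m v = true) ⊆ (Gm W σ y m).filter fun v => em m v = true :=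
      filter_subset_filter _ hΛ
    rw [card_sdiff_of_subset h4] at h2'
    rw [card_sdiff_of_subset hL] at h3'
    have h5 := card_le_card h4
    have h6 := card_le_card hL
    have h7 : (El W y \ X).card + (X ∩ El W y).card = (El W y).card := by
      rw [inter_comm]; exact card_sdiff_add_card_inter _ X
    have h8 : (Dl W y).card + (X ∩ El W y).card ≤ X.card := by
      rw [← card_union_of_disjoint (disj_DE.mono_right inter_subset_right)]
      exact card_le_card (union_subset hD inter_subset_left)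
    have h9 : (Dl W y).card + (El W y).card = W.card := by
      rw [← card_union_of_disjoint disj_DE]
      congr 1
      ext w
      rw [mem_union, mem_Dl, mem_El]
      constructor
      · rintro (h | h) <;> exact h.1
      · intro hw
        have := h.df.one w hw
        by_cases h1 : y w = 1
        · exact Or.inl ⟨hw, h1⟩
        · exact Or.inr ⟨hw, by omega⟩
    have h10 : (Gm W σ y m).card + (Sf W σ y m).card = Fintype.card ι := by
      have : (Gm W σ y m).card = (univ \ Sf W σ y m).card := by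
        unfold Gm
        refine card_image_of_injOn ?_
        intro a _ b _ hab
        exact (Prod.mk.inj hab).1
      rw [this, card_sdiff_of_subset (subset_univ _)]
      have := card_le_card (subset_univ (Sf W σ y m))
      rw [card_univ] at this ⊢
      omega
    have h11 := card_split (e := em m) Λ
    have h12 := card_split (e := em m) (Gm W σ y m)
    have h13 : (Λ.filter fun v => em m v = false).card ≤
        ((Gm W σ y m).filter fun v => em m v = false).card :=
      card_le_card (filter_subset_filter _ hΛ)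
    omega

theorem cnt_all (h : Opt W σ y m) (H : ∀ y m, DF W σ y m → ∑ i, m i ≤ ∑ w ∈ W, y w) :
    ((Gm W σ y m).filter fun v => em m v = false).card +
      2 * ((Gm W σ y m).filter fun v => em m v = true).card +
      2 * (Sf W σ y m).card ≤ (Dl W y).card + 2 * (El W y).card := by
  obtain ⟨d, hd, hd1⟩ := h.df.ex
  have h1 := H (fun w => if y w = 1 then 1 else 2) (fun i => if m i = 1 then 1 else 2)
    ⟨fun w _ => by split_ifs <;> omega, ⟨d, hd, if_pos hd1⟩, fun i c hc hz => by
      have e1 := h.df.zero i c hc hz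
      have e2 := m_pos h i
      split_ifs <;> omega, fun i a ha b hb _ _ => by
      split_ifs <;> omega⟩
  have h2 : ∑ w ∈ W, (if y w = 1 then 1 else 2) = (Dl W y).card + 2 * (El W y).card := by
    rw [sum_ite, sum_const, sum_const, smul_eq_mul, smul_eq_mul, Nat.mul_one]
    have : (W.filter fun w => ¬ y w = 1) = El W y := by
      unfold El
      refine filter_congr fun w hw => ?_
      have := h.df.one w hw
      omega
    rw [this]
    unfold Dl
    ring
  have h3 : ∑ i, (if m i = 1 then 1 else 2) =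
      ((Gm W σ y m).filter fun v => em m v = false).card +
      2 * ((Gm W σ y m).filter fun v => em m v = true).card + 2 * (Sf W σ y m).card := by
    rw [sum_ite, sum_const, sum_const, smul_eq_mul, smul_eq_mul, Nat.mul_one]
    have e1 : ((Gm W σ y m).filter fun v => em m v = false) =
        ((Gm W σ y m).filter fun v => m v.1 = 1) := by
      refine filter_congr fun v hv => ?_
      rw [em_false]
      exact ⟨fun h => h (mem_Gm.1 hv).2, fun h _ => h⟩
    have e2 : ((Gm W σ y m).filter fun v => em m v = true) =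
        ((Gm W σ y m).filter fun v => ¬ m v.1 = 1) := by
      refine filter_congr fun v hv => ?_
      rw [em_true]
      exact ⟨fun h => h.2, fun h => ⟨(mem_Gm.1 hv).2, h⟩⟩
    rw [e1, e2, card_Gm_filter (fun i => m i = 1), card_Gm_filter (fun i => ¬ m i = 1)]
    have e3 : (univ.filter fun i => m i = 1) = (univ \ Sf W σ y m).filter fun i => m i = 1 := by
      ext i
      rw [mem_filter, mem_filter, mem_sdiff]
      constructor
      · rintro ⟨a, b⟩
        refine ⟨⟨a, fun hs => ?_⟩, b⟩
        have := (mem_Sf.1 hs).1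
        omega
      · rintro ⟨a, b⟩
        exact ⟨a.1, b⟩
    have e4 : (univ.filter fun i => ¬ m i = 1) =
        ((univ \ Sf W σ y m).filter fun i => ¬ m i = 1) ∪ Sf W σ y m := by
      ext i
      rw [mem_filter, mem_union, mem_filter, mem_sdiff]
      constructor
      · rintro ⟨a, b⟩
        by_cases hs : i ∈ Sf W σ y m
        · exact Or.inr hs
        · exact Or.inl ⟨⟨a, hs⟩, b⟩
      · rintro (⟨a, b⟩ | hs)
        · exact ⟨a.1, b⟩
        · have := (mem_Sf.1 hs).1
          exact ⟨mem_univ _, by omega⟩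
    have e5 : Disjoint ((univ \ Sf W σ y m).filter fun i => ¬ m i = 1) (Sf W σ y m) := by
      rw [disjoint_left]
      intro i h1 h2
      exact (mem_sdiff.1 (mem_filter.1 h1).1).2 h2
    rw [e3, e4, card_union_of_disjoint e5]
    ring
  rw [h2, h3] at h1
  exact h1

theorem core_all (h : Opt W σ y m) (hW : W.Nonempty)
    (H : ∀ y m, DF W σ y m → ∑ i, m i ≤ ∑ w ∈ W, y w) :
    Core (Dl W y) (El W y) (Nt W σ y m) (em m) (Sf W σ y m) (Gm W σ y m) := by
  refine ⟨disj_DE, ?_, ?_, ?_, ?_, ?_, ?_, ?_, ?_, hall_all h (card_le_W hW H), sat_all h,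
    cnt_all h H⟩
  · intro i hi j hm
    exact (mem_Gm.1 hm).1 hi
  · intro v hv he
    rw [em_true] at he
    have hve : v = (v.1, 0) := Prod.ext rfl he.1
    rw [hve]
    exact N0_sub_El h he.2
  · intro v hv he
    rw [em_false] at he
    have hv0 := (mem_Gm.1 hv).2
    have hve : v = (v.1, 0) := Prod.ext rfl hv0
    rw [hve]
    exact N0_sub_Dl h (he hv0)
  · intro i hi
    have := (mem_Sf.1 hi).1
    exact N0_sub_El h (by omega)
  · intro i hi
    have hm := (mem_Sf.1 hi).1
    ext w
    rw [mem_union, mem_N1, mem_N2]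
    constructor
    · rintro (h | h) <;> exact h.1
    · intro hw
      rcases fin3 (σ i w) with e | e | e
      · exact absurd e (nozero h (by omega) hw)
      · exact Or.inl ⟨hw, e⟩
      · exact Or.inr ⟨hw, e⟩
  · intro i hi
    have hm := (mem_Sf.1 hi).1
    rw [em_true]
    exact ⟨rfl, by rw [hm]; decide⟩
  · intro i _
    rw [em_false]
    intro h0
    exact absurd h0 (show ¬ ((1 : Fin 3) = 0) by decide)
  · intro i _
    rw [em_false]
    intro h0
    exact absurd h0 (show ¬ ((2 : Fin 3) = 0) by decide)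

/-- an option for an index -/
def IsOpt (W : Finset α) (σ : ι → α → Fin 3) (i : ι) (s : Finset α) : Prop :=
  (∃ c ∈ W, σ i c = 0 ∧ s = {c}) ∨ ∃ a ∈ W, ∃ b ∈ W, σ i a = 1 ∧ σ i b = 2 ∧ s = {a, b}

theorem opt_of_sides {i : ι} {a b : α} (ha : a ∈ W) (hb : b ∈ W) (h1 : σ i a ≠ 0)
    (h2 : σ i b ≠ 0) (h3 : σ i a ≠ σ i b) : IsOpt W σ i {a, b} := by
  right
  rcases fin3 (σ i a) with e | e | e
  · exact absurd e h1
  · rcases fin3 (σ i b) with e' | e' | e'
    · exact absurd e' h2
    · exact absurd (e.trans e'.symm) h3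
    · exact ⟨a, ha, b, hb, e, e', rfl⟩
  · rcases fin3 (σ i b) with e' | e' | e'
    · exact absurd e' h2
    · exact ⟨b, hb, a, ha, e', e, pair_comm a b⟩
    · exact absurd (e.trans e'.symm) h3

/-- The min-max theorem: if no feasible dual solution of minimum level one has negative slack,
then there are pairwise disjoint options for all indices. -/
theorem min_max (hW : W.Nonempty) (H : ∀ y m, DF W σ y m → ∑ i, m i ≤ ∑ w ∈ W, y w) :
    ∃ o : ι → Finset α, (∀ i, IsOpt W σ i (o i)) ∧ ∀ i j, i ≠ j → Disjoint (o i) (o j) := by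
  obtain ⟨y, m, h⟩ := exists_opt hW H
  obtain ⟨w0, hw0⟩ := hW
  haveI : Nonempty α := ⟨w0⟩
  obtain ⟨K, hK, f, f1, f2, f3, f4, f5⟩ := core_main _ _ _ rfl (core_all h ⟨w0, hw0⟩ H)
  -- the mandatory indices
  have g1 : ∀ i, i ∉ Sf W σ y m → f (i, 0) ∈ Nt W σ y m (i, 0) :=
    fun i hi => f1 _ (mem_Gm.2 ⟨hi, rfl⟩)
  have hKS : ∀ i ∈ K, i ∈ Sf W σ y m := fun i hi => hK hi
  set Fi : Finset ι := (univ \ Sf W σ y m).filter fun i => m i ≠ 1 ∧ σ i (f (i, 0)) ≠ 0 with hFi
  set G1 : Finset ι := (univ \ Sf W σ y m).filter fun i => m i = 1 with hG1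
  set G2 : Finset ι := (univ \ Sf W σ y m).filter fun i => m i ≠ 1 with hG2
  set U : Finset α := (G1.image fun i => f (i, 0)) ∪
    ((Sf W σ y m \ K).image (fun i => f (i, 1)) ∪ (Sf W σ y m \ K).image fun i => f (i, 2))
    with hU
  have hUD : U ⊆ Dl W y := by
    intro x hx
    rw [hU, mem_union, mem_union, mem_image, mem_image, mem_image] at hx
    rcases hx with ⟨i, hi, rfl⟩ | ⟨i, hi, rfl⟩ | ⟨i, hi, rfl⟩
    · rw [hG1, mem_filter, mem_sdiff] at hi
      exact N0_sub_Dl h hi.2 (g1 i hi.1.2)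
    · exact (mem_N1.1 (f3 i hi).1).1
    · exact (mem_N2.1 (f3 i hi).2).1
  have hUc : U.card ≤ G1.card + 2 * (Sf W σ y m \ K).card := by
    rw [hU]
    have e1 := card_union_le (G1.image fun i => f (i, 0))
      ((Sf W σ y m \ K).image (fun i => f (i, 1)) ∪ (Sf W σ y m \ K).image fun i => f (i, 2))
    have e2 := card_union_le ((Sf W σ y m \ K).image (fun i => f (i, 1)))
      ((Sf W σ y m \ K).image fun i => f (i, 2))
    have e3 : (G1.image fun i => f (i, 0)).card ≤ G1.card := card_image_le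
    have e4 : ((Sf W σ y m \ K).image (fun i => f (i, 1))).card ≤ (Sf W σ y m \ K).card :=
      card_image_le
    have e5 : ((Sf W σ y m \ K).image (fun i => f (i, 2))).card ≤ (Sf W σ y m \ K).card :=
      card_image_le
    omega
  -- the elements of the higher levels are all used
  have hinjE : Set.InjOn (fun i => f (i, 0)) ((G2 ∪ K : Finset ι) : Set ι) := by
    intro i hi j hj hij
    have hcl : ∀ i ∈ (G2 ∪ K : Finset ι), ((i, (0 : Fin 3)) : ι × Fin 3) ∈
        {v | v ∈ Gm W σ y m ∨ (v.1 ∈ K ∧ v.2 = 0) ∨ (v.1 ∈ Sf W σ y m \ K ∧ v.2 ≠ 0)} := by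
      intro i hi
      rcases mem_union.1 hi with hi | hi
      · rw [hG2, mem_filter, mem_sdiff] at hi
        exact Or.inl (mem_Gm.2 ⟨hi.1.2, rfl⟩)
      · exact Or.inr (Or.inl ⟨hi, rfl⟩)
    exact (Prod.mk.inj (f4 (hcl i hi) (hcl j hj) hij)).1
  have hG2K : Disjoint G2 K := by
    rw [disjoint_left]
    intro i h1 h2
    rw [hG2, mem_filter, mem_sdiff] at h1
    exact h1.1.2 (hKS i h2)
  have himE : (G2 ∪ K).image (fun i => f (i, 0)) = El W y := by
    apply eq_of_subset_of_card_le
    · intro x hx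
      obtain ⟨i, hi, rfl⟩ := mem_image.1 hx
      rcases mem_union.1 hi with hi | hi
      · rw [hG2, mem_filter, mem_sdiff] at hi
        exact N0_sub_El h hi.2 (g1 i hi.1.2)
      · have hm := (mem_Sf.1 (hKS i hi)).1
        exact N0_sub_El h (by omega) (f2 i hi)
    · rw [card_image_of_injOn hinjE, card_union_of_disjoint hG2K, ← f5]
      have e2 : ((Gm W σ y m).filter fun v => em m v = true) =
          ((Gm W σ y m).filter fun v => m v.1 ≠ 1) := by
        refine filter_congr fun v hv => ?_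
        rw [em_true]
        exact ⟨fun h => h.2, fun h => ⟨(mem_Gm.1 hv).2, h⟩⟩
      rw [e2, card_Gm_filter (fun i => m i ≠ 1)]
  have hsumE : ∑ w ∈ El W y, y w + Fi.card = ∑ i ∈ G2, m i + 2 * K.card := by
    rw [← himE, sum_image hinjE, sum_union hG2K]
    have e1 : ∑ i ∈ K, y (f (i, 0)) = 2 * K.card := by
      rw [mul_comm, ← smul_eq_mul, ← sum_const]
      refine sum_congr rfl fun i hi => ?_
      have hm := (mem_Sf.1 (hKS i hi)).1
      have h1 := f2 i hi
      have h2 := (mem_El.1 (N0_sub_El h (by omega) h1)).2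
      rcases (mem_N0.1 h1).2 with ⟨_, h3⟩ | ⟨_, h3, _⟩ <;> omega
    have e2 : ∑ i ∈ G2, y (f (i, 0)) + Fi.card = ∑ i ∈ G2, m i := by
      have : Fi.card = ∑ i ∈ G2, if σ i (f (i, 0)) ≠ 0 then 1 else 0 := by
        rw [sum_boole, Nat.cast_id, hFi, hG2, filter_filter]
      rw [this, ← sum_add_distrib]
      refine sum_congr rfl fun i hi => ?_
      rw [hG2, mem_filter, mem_sdiff] at hi
      rcases (mem_N0.1 (g1 i hi.1.2)).2 with ⟨h3, h4⟩ | ⟨h3, h4, _⟩
      · rw [if_neg (not_not.2 h3)]; omega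
      · rw [if_pos h3]; omega
    omega
  have hcount : G1.card + 2 * (Sf W σ y m \ K).card + Fi.card ≤ (Dl W y).card := by
    have e1 : ∑ w ∈ W, y w = (Dl W y).card + ∑ w ∈ El W y, y w := by
      have e3 : W = Dl W y ∪ El W y := by
        ext w
        rw [mem_union, mem_Dl, mem_El]
        constructor
        · intro hw
          have := h.df.one w hw
          by_cases h1 : y w = 1
          · exact Or.inl ⟨hw, h1⟩
          · exact Or.inr ⟨hw, by omega⟩
        · rintro (h | h) <;> exact h.1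
      conv_lhs => rw [e3]
      rw [sum_union disj_DE]
      congr 1
      rw [card_eq_sum_ones]
      exact sum_congr rfl fun w hw => (mem_Dl.1 hw).2
    have e2 : ∑ i, m i = G1.card + ∑ i ∈ G2, m i + 2 * (Sf W σ y m).card := by
      have e3 : (univ : Finset ι) = (G1 ∪ G2) ∪ Sf W σ y m := by
        ext i
        rw [mem_union, mem_union, hG1, hG2, mem_filter, mem_filter, mem_sdiff]
        constructor
        · intro _
          by_cases hs : i ∈ Sf W σ y m
          · exact Or.inr hs
          · by_cases hm : m i = 1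
            · exact Or.inl (Or.inl ⟨⟨mem_univ _, hs⟩, hm⟩)
            · exact Or.inl (Or.inr ⟨⟨mem_univ _, hs⟩, hm⟩)
        · intro _; exact mem_univ _
      have e4 : Disjoint G1 G2 := by
        rw [disjoint_left]
        intro i h1 h2
        rw [hG1, mem_filter] at h1
        rw [hG2, mem_filter] at h2
        exact h2.2 h1.2
      have e5 : Disjoint (G1 ∪ G2) (Sf W σ y m) := by
        rw [disjoint_left]
        intro i h1 h2
        rw [mem_union, hG1, hG2, mem_filter, mem_filter, mem_sdiff] at h1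
        rcases h1 with h1 | h1
        · exact h1.1.2 h2
        · exact h1.1.2 h2
      rw [e3, sum_union e5, sum_union e4]
      have e6 : ∑ i ∈ G1, m i = G1.card := by
        rw [card_eq_sum_ones]
        refine sum_congr rfl fun i hi => ?_
        rw [hG1, mem_filter] at hi
        exact hi.2
      have e7 : ∑ i ∈ Sf W σ y m, m i = 2 * (Sf W σ y m).card := by
        rw [mul_comm, ← smul_eq_mul, ← sum_const]
        exact sum_congr rfl fun i hi => (mem_Sf.1 hi).1
      omega
    have e3 := h.slack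
    have e4 : (Sf W σ y m \ K).card + K.card = (Sf W σ y m).card := by
      rw [card_sdiff_of_subset hK]
      have := card_le_card hK
      omega
    omega
  -- fillers
  have hfill : Fintype.card Fi ≤ (Dl W y \ U).card := by
    rw [Fintype.card_coe, card_sdiff_of_subset hUD]
    omega
  obtain ⟨g, hg⟩ := Function.Embedding.exists_of_card_le_finset hfill
  have hg' : ∀ i : Fi, g i ∈ Dl W y \ U := fun i => hg ⟨i, rfl⟩
  -- the slots
  let F : ι × Fin 3 → α := fun v => if hv : v.1 ∈ Fi ∧ v.2 = 1 then g ⟨v.1, hv.1⟩ else f v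
  let T : ι → Finset (Fin 3) := fun i => if i ∈ Sf W σ y m \ K then {1, 2} else
    if i ∈ Fi then {0, 1} else {0}
  have hFS : ∀ i ∈ Fi, i ∉ Sf W σ y m := by
    intro i hi hs
    rw [hFi, mem_filter, mem_sdiff] at hi
    exact hi.1.2 hs
  have hT1 : ∀ i, i ∈ Sf W σ y m \ K → T i = {1, 2} := fun i hi => if_pos hi
  have hT2 : ∀ i, i ∉ Sf W σ y m \ K → i ∈ Fi → T i = {0, 1} := fun i hi hi' => by
    show (if i ∈ Sf W σ y m \ K then {1, 2} else if i ∈ Fi then {0, 1} else {0} : Finset (Fin 3)) = _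
    rw [if_neg hi, if_pos hi']
  have hT3 : ∀ i, i ∉ Sf W σ y m \ K → i ∉ Fi → T i = {0} := fun i hi hi' => by
    show (if i ∈ Sf W σ y m \ K then {1, 2} else if i ∈ Fi then {0, 1} else {0} : Finset (Fin 3)) = _
    rw [if_neg hi, if_neg hi']
  have hcls : ∀ i, ∀ j ∈ T i, (i ∈ Fi ∧ j = 1) ∨ (¬ (i ∈ Fi ∧ j = 1) ∧
      (((i, j) : ι × Fin 3) ∈ {v | v ∈ Gm W σ y m ∨ (v.1 ∈ K ∧ v.2 = 0) ∨
        (v.1 ∈ Sf W σ y m \ K ∧ v.2 ≠ 0)}) ∧ f (i, j) ∉ Dl W y \ U) := by
    intro i j hj
    by_cases hF : i ∈ Fi ∧ j = 1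
    · exact Or.inl hF
    refine Or.inr ⟨hF, ?_⟩
    by_cases hs : i ∈ Sf W σ y m \ K
    · have hj' : j = 1 ∨ j = 2 := by
        rw [hT1 i hs] at hj
        simpa using hj
      refine ⟨Or.inr (Or.inr ⟨hs, ?_⟩), ?_⟩
      · rcases hj' with rfl | rfl
        · exact (show ¬ ((1 : Fin 3) = 0) by decide)
        · exact (show ¬ ((2 : Fin 3) = 0) by decide)
      · intro hm
        refine (mem_sdiff.1 hm).2 ?_
        rw [hU, mem_union, mem_union, mem_image, mem_image, mem_image]
        rcases hj' with rfl | rfl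
        · exact Or.inr (Or.inl ⟨i, hs, rfl⟩)
        · exact Or.inr (Or.inr ⟨i, hs, rfl⟩)
    · have hj' : j = 0 := by
        by_cases hi : i ∈ Fi
        · have : j = 0 ∨ j = 1 := by
            rw [hT2 i hs hi] at hj
            simpa using hj
          rcases this with h1 | h1
          · exact h1
          · exact absurd ⟨hi, h1⟩ hF
        · rw [hT3 i hs hi] at hj
          simpa using hj
      subst hj'
      by_cases hS : i ∈ Sf W σ y m
      · have hiK : i ∈ K := by
          by_contra hn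
          exact hs (mem_sdiff.2 ⟨hS, hn⟩)
        refine ⟨Or.inr (Or.inl ⟨hiK, rfl⟩), fun hm => ?_⟩
        have hm2 := (mem_Sf.1 hS).1
        exact disjoint_left.1 disj_DE (mem_sdiff.1 hm).1 (N0_sub_El h (by omega) (f2 i hiK))
      · refine ⟨Or.inl (mem_Gm.2 ⟨hS, rfl⟩), fun hm => ?_⟩
        by_cases hm1 : m i = 1
        · refine (mem_sdiff.1 hm).2 ?_
          rw [hU, mem_union, mem_image]
          exact Or.inl ⟨i, by rw [hG1, mem_filter, mem_sdiff]; exact ⟨⟨mem_univ _, hS⟩, hm1⟩, rfl⟩
        · exact disjoint_left.1 disj_DE (mem_sdiff.1 hm).1 (N0_sub_El h hm1 (g1 i hS))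
  have hFinj : ∀ i, ∀ j ∈ T i, ∀ i', ∀ j' ∈ T i', F (i, j) = F (i', j') → i = i' := by
    intro i j hj i' j' hj' he
    rcases hcls i j hj with h1 | ⟨h1, h2, h3⟩
    · rcases hcls i' j' hj' with h1' | ⟨h1', h2', h3'⟩
      · simp only [F] at he
        rw [dif_pos h1, dif_pos h1'] at he
        have := g.injective he
        exact congrArg Subtype.val this
      · simp only [F] at he
        rw [dif_pos h1, dif_neg h1'] at he
        rw [← he] at h3'
        exact absurd (hg' _) h3'
    · rcases hcls i' j' hj' with h1' | ⟨h1', h2', h3'⟩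
      · simp only [F] at he
        rw [dif_neg h1, dif_pos h1'] at he
        rw [he] at h3
        exact absurd (hg' _) h3
      · simp only [F] at he
        rw [dif_neg h1, dif_neg h1'] at he
        exact (Prod.mk.inj (f4 h2 h2' he)).1
  refine ⟨fun i => (T i).image fun j => F (i, j), fun i => ?_, fun i i' hii' => ?_⟩
  · by_cases hs : i ∈ Sf W σ y m \ K
    · have hiF : i ∉ Fi := fun hm => hFS i hm (mem_sdiff.1 hs).1
      have e1 : (T i).image (fun j => F (i, j)) = {f (i, 1), f (i, 2)} := by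
        rw [hT1 i hs]
        simp [F, hiF, image_insert]
      show IsOpt W σ i ((T i).image fun j => F (i, j))
      rw [e1]
      have h1 := mem_N1.1 (f3 i hs).1
      have h2 := mem_N2.1 (f3 i hs).2
      exact Or.inr ⟨_, (mem_Dl.1 h1.1).1, _, (mem_Dl.1 h2.1).1, h1.2, h2.2, rfl⟩
    · by_cases hi : i ∈ Fi
      · have e1 : (T i).image (fun j => F (i, j)) = {f (i, 0), g ⟨i, hi⟩} := by
          rw [hT2 i hs hi]
          simp [F, hi, image_insert]
        show IsOpt W σ i ((T i).image fun j => F (i, j))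
        rw [e1]
        have hi' := hi
        rw [hFi, mem_filter, mem_sdiff] at hi'
        have h1 := mem_N0.1 (g1 i hi'.1.2)
        have h2 := (mem_sdiff.1 (hg' ⟨i, hi⟩)).1
        rcases h1.2 with ⟨h3, _⟩ | ⟨h3, _, h4⟩
        · exact absurd h3 hi'.2.2
        · exact opt_of_sides h1.1 (mem_Dl.1 h2).1 h3 (h4 _ h2).1 (h4 _ h2).2.symm
      · have e1 : (T i).image (fun j => F (i, j)) = {f (i, 0)} := by
          rw [hT3 i hs hi]
          simp [F]
        show IsOpt W σ i ((T i).image fun j => F (i, j))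
        rw [e1]
        by_cases hS : i ∈ Sf W σ y m
        · have hiK : i ∈ K := by
            by_contra hn
            exact hs (mem_sdiff.2 ⟨hS, hn⟩)
          have hm := (mem_Sf.1 hS).1
          have h1 := f2 i hiK
          have h2 := (mem_El.1 (N0_sub_El h (by omega) h1)).2
          rcases (mem_N0.1 h1).2 with ⟨h3, _⟩ | ⟨_, h3, _⟩
          · exact Or.inl ⟨_, (mem_N0.1 h1).1, h3, rfl⟩
          · omega
        · have h1 := g1 i hS
          rcases (mem_N0.1 h1).2 with ⟨h3, _⟩ | ⟨h3, h4, _⟩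
          · exact Or.inl ⟨_, (mem_N0.1 h1).1, h3, rfl⟩
          · exfalso
            have h5 := h.df.one _ (mem_N0.1 h1).1
            apply hi
            rw [hFi, mem_filter, mem_sdiff]
            exact ⟨⟨mem_univ _, hS⟩, by omega, h3⟩
  · show Disjoint ((T i).image fun j => F (i, j)) ((T i').image fun j => F (i', j))
    rw [disjoint_left]
    intro x hx hx'
    obtain ⟨j, hj, hjx⟩ := mem_image.1 hx
    obtain ⟨j', hj', hjx'⟩ := mem_image.1 hx'
    exact hii' (hFinj i j hj i' j' hj' (hjx.trans hjx'.symm))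

end Pool.Agent.Helper878_mm
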