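import Pool.Agent.Helper878_mm.Core

/-!
# Committing one index
-/

set_option autoImplicit false

namespace Pool.Agent.Helper878_mm

open Finset

variable {α ι : Type} [DecidableEq α] [DecidableEq ι]
variable {D E : Finset α} {N : ι × Fin 3 → Finset α} {e : ι × Fin 3 → Bool} {S : Finset ι}
  {Γ : Finset (ι × Fin 3)}

theorem two_cert (h : Core D E N e S Γ) {i : ι} (hi : i ∈ S) {Λ₁ Λ₂ : Finset (ι × Fin 3)}
    {L₁ L₂ : Finset ι} {τ₁ τ₂ : ι → Bool} {X₁ X₂ : Finset α} (hΛ₁ : Λ₁ ⊆ Γ) (hΛ₂ : Λ₂ ⊆ Γ)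
    (hL₁ : L₁ ⊆ S.erase i) (hL₂ : L₂ ⊆ S.erase i) (a₁ : nb N Λ₁ L₁ τ₁ ⊆ X₁)
    (a₂ : nb N Λ₂ L₂ τ₂ ⊆ X₂) (c₁ : N (i, 0) ⊆ X₁) (c₂ : N (i, sd (τ₂ i)) ⊆ X₂)
    (hX₁ : X₁.card ≤ Λ₁.card + L₁.card) (hX₂ : X₂.card ≤ Λ₂.card + L₂.card) : False := by
  by_cases hag : ∀ j ∈ L₁, j ∈ L₂ → τ₁ j = τ₂ j
  · exact agree h hi hΛ₁ hΛ₂ hL₁ hL₂ a₁ a₂ c₁ c₂ hag hX₁ hX₂
  · push Not at hag
    obtain ⟨j, hj1, hj2, hne⟩ := hag
    have hjS : j ∈ S := mem_of_mem_erase (hL₁ hj1)
    refine conflict h hi hΛ₁ hΛ₂ hL₁ hL₂ (fun v hv x hx => a₁ (nb_mem.2 (Or.inl ⟨v, hv, hx⟩)))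
      (fun v hv x hx => a₂ (nb_mem.2 (Or.inl ⟨v, hv, hx⟩)))
      (fun l hl x hx => a₁ (nb_mem.2 (Or.inr (Or.inl ⟨l, hl, hx⟩))))
      (fun l hl x hx => a₂ (nb_mem.2 (Or.inr (Or.inl ⟨l, hl, hx⟩)))) c₁ ?_ hX₁ hX₂
    rw [← sd_cover h hjS hne]
    refine union_subset ?_ ?_
    · exact (fun x hx => mem_union_left _ (a₁ (nb_mem.2 (Or.inr (Or.inr ⟨j, hj1, hx⟩)))))
    · exact (fun x hx => mem_union_right _ (a₂ (nb_mem.2 (Or.inr (Or.inr ⟨j, hj2, hx⟩)))))

theorem sat_erase (h : Core D E N e S Γ) {i : ι} {Λ₁ : Finset (ι × Fin 3)}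
    {L₁ : Finset ι} {τ₁ : ι → Bool} {X₁ : Finset α} (hΛ₁ : Λ₁ ⊆ Γ)
    (hL₁ : L₁ ⊆ S.erase i) (a₁ : nb N Λ₁ L₁ τ₁ ⊆ X₁) (c₁ : N (i, 0) ⊆ X₁)
    (hX₁ : X₁.card ≤ Λ₁.card + L₁.card) (Z : Finset α) (hZ : Z ⊆ E) :
    Z.card ≤ (Γ.filter fun v => ¬ Disjoint (N v) Z).card +
      ((S.erase i).filter fun i => ¬ Disjoint (N (i, 0)) Z).card := by
  by_contra hlt
  push Not at hlt
  set ΘΓ := Γ.filter fun v => ¬ Disjoint (N v) Z with hΘΓ
  set ΘS := (S.erase i).filter fun i => ¬ Disjoint (N (i, 0)) Z with hΘS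
  have s1 : L₁ ⊆ S := hL₁.trans (erase_subset _ _)
  have h1 := h.sat (Z \ X₁) (sdiff_subset.trans hZ)
  have h2 : (Γ.filter fun v => ¬ Disjoint (N v) (Z \ X₁)) ⊆ ΘΓ \ Λ₁ := by
    intro v hv
    rw [mem_filter] at hv
    rw [mem_sdiff, hΘΓ, mem_filter]
    refine ⟨⟨hv.1, fun hd => hv.2 (hd.mono_right sdiff_subset)⟩, fun hvL => hv.2 ?_⟩
    rw [disjoint_left]
    intro x hx hx'
    exact (mem_sdiff.1 hx').2 (a₁ (nb_mem.2 (Or.inl ⟨v, hvL, hx⟩)))
  have h3 : (S.filter fun i => ¬ Disjoint (N (i, 0)) (Z \ X₁)) ⊆ ΘS \ L₁ := by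
    intro j hj
    rw [mem_filter] at hj
    rw [mem_sdiff, hΘS, mem_filter, mem_erase]
    refine ⟨⟨⟨?_, hj.1⟩, fun hd => hj.2 (hd.mono_right sdiff_subset)⟩, fun hjL => hj.2 ?_⟩
    · rintro rfl
      refine hj.2 ?_
      rw [disjoint_left]
      intro x hx hx'
      exact (mem_sdiff.1 hx').2 (c₁ hx)
    · rw [disjoint_left]
      intro x hx hx'
      exact (mem_sdiff.1 hx').2 (a₁ (nb_mem.2 (Or.inr (Or.inl ⟨j, hjL, hx⟩))))
  have h4 := h.hall (Λ₁ \ ΘΓ) (sdiff_subset.trans hΛ₁) (L₁ \ ΘS) (sdiff_subset.trans s1) τ₁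
  have h5 : nb N (Λ₁ \ ΘΓ) (L₁ \ ΘS) τ₁ ⊆ X₁ \ Z := by
    intro x hx
    rw [nb_mem] at hx
    rw [mem_sdiff]
    rcases hx with ⟨v, hv, hx⟩ | ⟨j, hj, hx⟩ | ⟨j, hj, hx⟩
    · rw [mem_sdiff, hΘΓ, mem_filter] at hv
      refine ⟨a₁ (nb_mem.2 (Or.inl ⟨v, hv.1, hx⟩)), fun hxZ => hv.2 ⟨hΛ₁ hv.1, fun hd => ?_⟩⟩
      exact disjoint_left.1 hd hx hxZ
    · rw [mem_sdiff, hΘS, mem_filter] at hj
      refine ⟨a₁ (nb_mem.2 (Or.inr (Or.inl ⟨j, hj.1, hx⟩))), fun hxZ => hj.2
        ⟨hL₁ hj.1, fun hd => ?_⟩⟩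
      exact disjoint_left.1 hd hx hxZ
    · rw [mem_sdiff] at hj
      refine ⟨a₁ (nb_mem.2 (Or.inr (Or.inr ⟨j, hj.1, hx⟩))), fun hxZ => ?_⟩
      exact disjoint_left.1 h.hDE (sd_sub h (s1 hj.1) _ hx) (hZ hxZ)
  have c2 := card_le_card h2
  have c3 := card_le_card h3
  have c5 := card_le_card h5
  have d1 := card_sdiff_add_card_inter X₁ Z
  have d2 := card_sdiff_add_card_inter Z X₁
  have d3 := card_sdiff_add_card_inter ΘΓ Λ₁
  have d4 := card_sdiff_add_card_inter Λ₁ ΘΓ
  have d5 := card_sdiff_add_card_inter ΘS L₁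
  have d6 := card_sdiff_add_card_inter L₁ ΘS
  rw [inter_comm] at d2 d4 d6
  omega

theorem core_single (h : Core D E N e S Γ) {i : ι} (hi : i ∈ S)
    (hn : ∀ Λ ⊆ Γ, ∀ L ⊆ S.erase i, ∀ τ : ι → Bool,
      Λ.card + L.card < (nb N Λ L τ ∪ N (i, 0)).card) :
    Core D E N e (S.erase i) (insert (i, 0) Γ) := by
  have hiΓ : (i, (0 : Fin 3)) ∉ Γ := h.hS i hi 0
  refine ⟨h.hDE, ?_, ?_, ?_, fun j hj => h.hT j (mem_of_mem_erase hj),
    fun j hj => h.hAB j (mem_of_mem_erase hj), fun j hj => h.he0 j (mem_of_mem_erase hj),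
    fun j hj => h.he1 j (mem_of_mem_erase hj), fun j hj => h.he2 j (mem_of_mem_erase hj), ?_, ?_,
    ?_⟩
  · intro j hj l hm
    rcases mem_insert.1 hm with hm | hm
    · exact (mem_erase.1 hj).1 (Prod.mk.inj hm).1
    · exact h.hS j (mem_of_mem_erase hj) l hm
  · intro v hv he
    rcases mem_insert.1 hv with rfl | hv
    · exact h.hT i hi
    · exact h.hE v hv he
  · intro v hv he
    rcases mem_insert.1 hv with rfl | hv
    · rw [h.he0 i hi] at he
      exact absurd he (by simp)
    · exact h.hD v hv he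
  · intro Λ' hΛ' L hL τ
    by_cases hm : (i, (0 : Fin 3)) ∈ Λ'
    · have h1 : Λ'.erase (i, 0) ⊆ Γ := by
        intro v hv
        rcases mem_insert.1 (hΛ' (mem_of_mem_erase hv)) with h2 | h2
        · exact absurd h2 (mem_erase.1 hv).1
        · exact h2
      have h2 := hn _ h1 L hL τ
      have h3 : nb N (Λ'.erase (i, 0)) L τ ∪ N (i, 0) ⊆ nb N Λ' L τ := by
        intro x hx
        rcases mem_union.1 hx with hx | hx
        · rw [nb_mem] at hx ⊢
          rcases hx with ⟨v, hv, hx⟩ | hx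
          · exact Or.inl ⟨v, mem_of_mem_erase hv, hx⟩
          · exact Or.inr hx
        · exact nb_mem.2 (Or.inl ⟨_, hm, hx⟩)
      have h4 := card_le_card h3
      have h5 := card_erase_add_one hm
      omega
    · refine h.hall Λ' ?_ L (hL.trans (erase_subset _ _)) τ
      intro v hv
      rcases mem_insert.1 (hΛ' hv) with rfl | h2
      · exact absurd hv hm
      · exact h2
  · intro Z hZ
    have h1 := h.sat Z hZ
    rw [filter_insert]
    by_cases hd : Disjoint (N (i, 0)) Z
    · rw [if_neg (not_not.2 hd)]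
      have : (S.filter fun i => ¬ Disjoint (N (i, 0)) Z) =
          ((S.erase i).filter fun i => ¬ Disjoint (N (i, 0)) Z) := by
        ext j
        rw [mem_filter, mem_filter, mem_erase]
        exact ⟨fun ⟨a, b⟩ => ⟨⟨fun hji => b (hji ▸ hd), a⟩, b⟩, fun ⟨a, b⟩ => ⟨a.2, b⟩⟩
      rw [this] at h1
      exact h1
    · rw [if_pos hd, card_insert_of_notMem (fun hm => hiΓ (mem_filter.1 hm).1)]
      have : (S.filter fun i => ¬ Disjoint (N (i, 0)) Z) =
          insert i ((S.erase i).filter fun i => ¬ Disjoint (N (i, 0)) Z) := by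
        ext j
        rw [mem_insert, mem_filter, mem_filter, mem_erase]
        constructor
        · rintro ⟨a, b⟩
          by_cases hji : j = i
          · exact Or.inl hji
          · exact Or.inr ⟨⟨hji, a⟩, b⟩
        · rintro (rfl | ⟨a, b⟩)
          · exact ⟨hi, hd⟩
          · exact ⟨a.2, b⟩
      rw [this, card_insert_of_notMem (by simp)] at h1
      omega
  · have h1 := h.cnt
    rw [filter_insert, if_neg (by rw [h.he0 i hi]; simp), filter_insert, if_pos (h.he0 i hi),
      card_insert_of_notMem (fun hm => hiΓ (mem_filter.1 hm).1)]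
    have h2 := card_erase_add_one hi
    omega

theorem core_pair (h : Core D E N e S Γ) {i : ι} (hi : i ∈ S) {Λ₁ : Finset (ι × Fin 3)}
    {L₁ : Finset ι} {τ₁ : ι → Bool} (hΛ₁ : Λ₁ ⊆ Γ) (hL₁ : L₁ ⊆ S.erase i)
    (hX₁ : (nb N Λ₁ L₁ τ₁ ∪ N (i, 0)).card ≤ Λ₁.card + L₁.card) :
    Core D E N e (S.erase i) (insert (i, 1) (insert (i, 2) Γ)) := by
  have hi1 : (i, (1 : Fin 3)) ∉ Γ := h.hS i hi 1
  have hi2 : (i, (2 : Fin 3)) ∉ Γ := h.hS i hi 2
  have hi12 : (i, (1 : Fin 3)) ∉ insert (i, (2 : Fin 3)) Γ := by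
    rw [mem_insert]
    rintro (hm | hm)
    · exact absurd (Prod.mk.inj hm).2 (by decide)
    · exact hi1 hm
  have hsat := sat_erase h hΛ₁ hL₁ subset_union_left subset_union_right hX₁
  have hN1 : N (i, 1) ⊆ D := sd_sub h hi true
  have hN2 : N (i, 2) ⊆ D := sd_sub h hi false
  refine ⟨h.hDE, ?_, ?_, ?_, fun j hj => h.hT j (mem_of_mem_erase hj),
    fun j hj => h.hAB j (mem_of_mem_erase hj), fun j hj => h.he0 j (mem_of_mem_erase hj),
    fun j hj => h.he1 j (mem_of_mem_erase hj), fun j hj => h.he2 j (mem_of_mem_erase hj), ?_, ?_,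
    ?_⟩
  · intro j hj l hm
    rcases mem_insert.1 hm with hm | hm
    · exact (mem_erase.1 hj).1 (Prod.mk.inj hm).1
    · rcases mem_insert.1 hm with hm | hm
      · exact (mem_erase.1 hj).1 (Prod.mk.inj hm).1
      · exact h.hS j (mem_of_mem_erase hj) l hm
  · intro v hv he
    rcases mem_insert.1 hv with rfl | hv
    · rw [h.he1 i hi] at he; exact absurd he (by simp)
    · rcases mem_insert.1 hv with rfl | hv
      · rw [h.he2 i hi] at he; exact absurd he (by simp)
      · exact h.hE v hv he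
  · intro v hv he
    rcases mem_insert.1 hv with rfl | hv
    · exact hN1
    · rcases mem_insert.1 hv with rfl | hv
      · exact hN2
      · exact h.hD v hv he
  · intro Λ' hΛ' L hL τ
    by_contra hlt
    push Not at hlt
    have hsub : (Λ'.erase (i, 1)).erase (i, 2) ⊆ Γ := by
      intro v hv
      have hv2 := mem_erase.1 hv
      have hv1 := mem_erase.1 hv2.2
      rcases mem_insert.1 (hΛ' hv1.2) with hm | hm
      · exact absurd hm hv1.1
      · rcases mem_insert.1 hm with hm | hm
        · exact absurd hm hv2.1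
        · exact hm
    have hnb : ∀ τ' : ι → Bool, (∀ j ∈ L, τ' j = τ j) →
        nb N ((Λ'.erase (i, 1)).erase (i, 2)) L τ' ⊆ nb N Λ' L τ := by
      intro τ' hτ' x hx
      rw [nb_mem] at hx ⊢
      rcases hx with ⟨v, hv, hx⟩ | hx | ⟨j, hj, hx⟩
      · exact Or.inl ⟨v, mem_of_mem_erase (mem_of_mem_erase hv), hx⟩
      · exact Or.inr (Or.inl hx)
      · rw [hτ' j hj] at hx
        exact Or.inr (Or.inr ⟨j, hj, hx⟩)
    have hiL : i ∉ L := fun hm => notMem_erase i S (hL hm)
    by_cases hp : (i, (1 : Fin 3)) ∈ Λ' <;> by_cases hq : (i, (2 : Fin 3)) ∈ Λ'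
    · -- both
      have hq' : (i, (2 : Fin 3)) ∈ Λ'.erase (i, 1) :=
        mem_erase.2 ⟨fun hm => absurd (Prod.mk.inj hm).2 (by decide), hq⟩
      have c1 := card_erase_add_one hp
      have c2 := card_erase_add_one hq'
      have hDX : D ⊆ nb N Λ' L τ := by
        rw [← h.hAB i hi]
        exact union_subset (fun x hx => nb_mem.2 (Or.inl ⟨_, hp, hx⟩))
          (fun x hx => nb_mem.2 (Or.inl ⟨_, hq, hx⟩))
      set Λ₂ := (Λ'.erase (i, 1)).erase (i, 2) with hΛ₂
      set X := nb N Λ' L τ with hX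
      -- saturation without `i`
      have g1 := hsat (E \ X) sdiff_subset
      have g2 : (Γ.filter fun v => ¬ Disjoint (N v) (E \ X)) ⊆
          (Γ.filter fun v => e v = true) \ (Λ₂.filter fun v => e v = true) := by
        intro v hv
        rw [mem_filter] at hv
        rw [mem_sdiff, mem_filter, mem_filter]
        have hvL : v ∉ Λ₂ := fun hvL => hv.2 (by
          rw [disjoint_left]
          intro x hx hx'
          exact (mem_sdiff.1 hx').2 (nb_mem.2 (Or.inl ⟨v,
            mem_of_mem_erase (mem_of_mem_erase hvL), hx⟩)))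
        refine ⟨⟨hv.1, ?_⟩, fun h => hvL h.1⟩
        by_contra he
        rw [Bool.not_eq_true] at he
        exact hv.2 ((h.hDE.mono_left (h.hD v hv.1 he)).mono_right sdiff_subset)
      have g3 : ((S.erase i).filter fun i => ¬ Disjoint (N (i, 0)) (E \ X)) ⊆ (S.erase i) \ L := by
        intro j hj
        rw [mem_filter] at hj
        rw [mem_sdiff]
        refine ⟨hj.1, fun hjL => hj.2 ?_⟩
        rw [disjoint_left]
        intro x hx hx'
        exact (mem_sdiff.1 hx').2 (nb_mem.2 (Or.inr (Or.inl ⟨j, hjL, hx⟩)))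
      have g4 : (Λ₂.filter fun v => e v = true) ⊆ Γ.filter fun v => e v = true :=
        filter_subset_filter _ hsub
      have g2' := card_le_card g2
      have g3' := card_le_card g3
      rw [card_sdiff_of_subset g4] at g2'
      rw [card_sdiff_of_subset hL] at g3'
      have g5 := card_le_card g4
      have g6 := card_le_card hL
      have g7 : (E \ X).card + (X ∩ E).card = E.card := by
        rw [inter_comm]; exact card_sdiff_add_card_inter E X
      have g8 : D.card + (X ∩ E).card ≤ X.card := by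
        rw [← card_union_of_disjoint (h.hDE.mono_right inter_subset_right)]
        exact card_le_card (union_subset hDX inter_subset_left)
      -- saturation of `E`
      have e1 := hsat E (Subset.refl E)
      have e2 : (Γ.filter fun v => ¬ Disjoint (N v) E) ⊆ Γ.filter fun v => e v = true := by
        intro v hv
        rw [mem_filter] at hv ⊢
        refine ⟨hv.1, ?_⟩
        by_contra he
        rw [Bool.not_eq_true] at he
        exact hv.2 (h.hDE.mono_left (h.hD v hv.1 he))
      have e2' := card_le_card e2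
      have e3' := card_le_card (filter_subset (fun i => ¬ Disjoint (N (i, 0)) E) (S.erase i))
      have f1 := card_split (e := e) Λ₂
      have f2 : (Λ₂.filter fun v => e v = false).card ≤ (Γ.filter fun v => e v = false).card :=
        card_le_card (filter_subset_filter _ hsub)
      have f3 := h.cnt
      have f4 := card_erase_add_one hi
      omega
    · -- only the first
      have c1 := card_erase_add_one hp
      have c2 : (Λ'.erase (i, 1)).erase (i, 2) = Λ'.erase (i, 1) :=
        erase_eq_of_notMem (fun hm => hq (mem_of_mem_erase hm))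
      refine two_cert h hi (τ₂ := Function.update τ i true) hΛ₁ hsub hL₁ hL
        (subset_union_left (s₂ := N (i, 0))) (hnb _ ?_) subset_union_right ?_ hX₁
        (X₂ := nb N Λ' L τ) (by rw [c2]; omega)
      · intro j hj
        have hji : j ≠ i := by
          rintro rfl
          exact hiL hj
        exact Function.update_of_ne hji _ _
      · rw [Function.update_self]
        exact fun x hx => nb_mem.2 (Or.inl ⟨_, hp, hx⟩)
    · -- only the second
      have c1 := card_erase_add_one hq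
      have c2 : Λ'.erase (i, 1) = Λ' := erase_eq_of_notMem hp
      refine two_cert h hi (τ₂ := Function.update τ i false) hΛ₁ hsub hL₁ hL
        (subset_union_left (s₂ := N (i, 0))) (hnb _ ?_) subset_union_right ?_ hX₁
        (X₂ := nb N Λ' L τ) (by rw [c2]; omega)
      · intro j hj
        have hji : j ≠ i := by
          rintro rfl
          exact hiL hj
        exact Function.update_of_ne hji _ _
      · rw [Function.update_self]
        exact fun x hx => nb_mem.2 (Or.inl ⟨_, hq, hx⟩)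
    · have hsub' : Λ' ⊆ Γ := by
        intro v hv
        rcases mem_insert.1 (hΛ' hv) with rfl | hm
        · exact absurd hv hp
        · rcases mem_insert.1 hm with rfl | hm
          · exact absurd hv hq
          · exact hm
      have := h.hall Λ' hsub' L (hL.trans (erase_subset _ _)) τ
      omega
  · intro Z hZ
    refine (hsat Z hZ).trans (Nat.add_le_add_right (card_le_card ?_) _)
    exact filter_subset_filter _ ((subset_insert _ _).trans (subset_insert _ _))
  · have h1 := h.cnt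
    rw [filter_insert, if_pos (h.he1 i hi), filter_insert, if_pos (h.he2 i hi),
      card_insert_of_notMem (fun hm => hi12 (by
        rcases mem_insert.1 hm with hm | hm
        · exact mem_insert.2 (Or.inl hm)
        · exact mem_insert.2 (Or.inr (mem_filter.1 hm).1))),
      card_insert_of_notMem (fun hm => hi2 (mem_filter.1 hm).1),
      filter_insert, if_neg (by rw [h.he1 i hi]; simp), filter_insert,
      if_neg (by rw [h.he2 i hi]; simp)]
    have h2 := card_erase_add_one hi
    omega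

/-- The main combinatorial theorem. -/
theorem core_main [Nonempty α] : ∀ (n : ℕ) (S : Finset ι) (Γ : Finset (ι × Fin 3)), S.card = n →
    Core D E N e S Γ → ∃ K ⊆ S, ∃ f : ι × Fin 3 → α,
      (∀ v ∈ Γ, f v ∈ N v) ∧ (∀ i ∈ K, f (i, 0) ∈ N (i, 0)) ∧
      (∀ i ∈ S \ K, f (i, 1) ∈ N (i, 1) ∧ f (i, 2) ∈ N (i, 2)) ∧
      Set.InjOn f {v | v ∈ Γ ∨ (v.1 ∈ K ∧ v.2 = 0) ∨ (v.1 ∈ S \ K ∧ v.2 ≠ 0)} ∧
      (Γ.filter fun v => e v = true).card + K.card = E.card := by
  intro n
  induction n with
  | zero =>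
    intro S Γ hS h
    have hS' : S = ∅ := card_eq_zero.1 hS
    subst hS'
    have hH : ∀ s : Finset {v // v ∈ Γ}, s.card ≤ (s.biUnion fun v => N v.1).card := by
      intro s
      have h1 := h.hall (s.map (Function.Embedding.subtype _)) (by
        intro v hv
        obtain ⟨w, _, rfl⟩ := mem_map.1 hv
        exact w.2) ∅ (empty_subset _) (fun _ => true)
      rw [card_map, card_empty, Nat.add_zero] at h1
      refine h1.trans (card_le_card ?_)
      intro x hx
      rw [nb_mem] at hx
      rcases hx with ⟨v, hv, hx⟩ | ⟨j, hj, _⟩ | ⟨j, hj, _⟩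
      · obtain ⟨w, hw, rfl⟩ := mem_map.1 hv
        exact mem_biUnion.2 ⟨w, hw, hx⟩
      · exact absurd hj (notMem_empty j)
      · exact absurd hj (notMem_empty j)
    obtain ⟨g, hg1, hg2⟩ := (all_card_le_biUnion_card_iff_exists_injective _).1 hH
    have key : (Γ.filter fun v => e v = true).card = E.card := by
      apply le_antisymm
      · have h1 := h.hall (Γ.filter fun v => e v = true) (filter_subset _ _) ∅ (empty_subset _)
          (fun _ => true)
        rw [card_empty, Nat.add_zero] at h1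
        refine h1.trans (card_le_card ?_)
        intro x hx
        rw [nb_mem] at hx
        rcases hx with ⟨v, hv, hx⟩ | ⟨j, hj, _⟩ | ⟨j, hj, _⟩
        · rw [mem_filter] at hv
          exact h.hE v hv.1 hv.2 hx
        · exact absurd hj (notMem_empty j)
        · exact absurd hj (notMem_empty j)
      · have h1 := h.sat E (Subset.refl E)
        rw [filter_empty, card_empty, Nat.add_zero] at h1
        refine h1.trans (card_le_card ?_)
        intro v hv
        rw [mem_filter] at hv ⊢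
        refine ⟨hv.1, ?_⟩
        by_contra he
        rw [Bool.not_eq_true] at he
        exact hv.2 (h.hDE.mono_left (h.hD v hv.1 he))
    by_cases hΓ : Γ.Nonempty
    · obtain ⟨v0, hv0⟩ := hΓ
      refine ⟨∅, Subset.refl _, fun v => if hv : v ∈ Γ then g ⟨v, hv⟩ else g ⟨v0, hv0⟩, ?_, ?_, ?_,
        ?_, ?_⟩
      · intro v hv
        simp only [hv, dif_pos]
        exact hg2 ⟨v, hv⟩
      · intro i hi
        exact absurd hi (notMem_empty i)
      · intro i hi
        exact absurd (mem_sdiff.1 hi).1 (notMem_empty i)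
      · intro v hv w hw hvw
        have hv' : v ∈ Γ := by
          rcases hv with hv | hv | hv
          · exact hv
          · exact absurd hv.1 (notMem_empty _)
          · exact absurd (mem_sdiff.1 hv.1).1 (notMem_empty _)
        have hw' : w ∈ Γ := by
          rcases hw with hw | hw | hw
          · exact hw
          · exact absurd hw.1 (notMem_empty _)
          · exact absurd (mem_sdiff.1 hw.1).1 (notMem_empty _)
        simp only [hv', hw', dif_pos] at hvw
        exact congrArg Subtype.val (hg1 hvw)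
      · rw [card_empty, Nat.add_zero]; exact key
    · rw [not_nonempty_iff_eq_empty] at hΓ
      subst hΓ
      refine ⟨∅, Subset.refl _, fun _ => Classical.arbitrary α, ?_, ?_, ?_, ?_, ?_⟩
      · intro v hv
        exact absurd hv (notMem_empty v)
      · intro i hi
        exact absurd hi (notMem_empty i)
      · intro i hi
        exact absurd (mem_sdiff.1 hi).1 (notMem_empty i)
      · intro v hv
        exfalso
        rcases hv with hv | hv | hv
        · exact absurd hv (notMem_empty _)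
        · exact absurd hv.1 (notMem_empty _)
        · exact absurd (mem_sdiff.1 hv.1).1 (notMem_empty _)
      · rw [card_empty, Nat.add_zero]; exact key
  | succ n ih =>
    intro S Γ hS h
    obtain ⟨i, hi⟩ : S.Nonempty := card_pos.1 (by omega)
    have hc : (S.erase i).card = n := by
      have := card_erase_add_one hi
      omega
    by_cases hn : ∀ Λ ⊆ Γ, ∀ L ⊆ S.erase i, ∀ τ : ι → Bool,
        Λ.card + L.card < (nb N Λ L τ ∪ N (i, 0)).card
    · obtain ⟨K, hK, f, f1, f2, f3, f4, f5⟩ := ih _ _ hc (core_single h hi hn)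
      have hiK : i ∉ K := fun hm => notMem_erase i S (hK hm)
      refine ⟨insert i K, insert_subset hi (hK.trans (erase_subset _ _)), f,
        fun v hv => f1 v (mem_insert_of_mem hv), ?_, ?_, ?_, ?_⟩
      · intro j hj
        rcases mem_insert.1 hj with rfl | hj
        · exact f1 _ (mem_insert_self _ _)
        · exact f2 j hj
      · intro j hj
        rw [mem_sdiff, mem_insert, not_or] at hj
        exact f3 j (mem_sdiff.2 ⟨mem_erase.2 ⟨hj.2.1, hj.1⟩, hj.2.2⟩)
      · refine f4.mono ?_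
        rintro v (hv | ⟨hv, hv0⟩ | ⟨hv, hv0⟩)
        · exact Or.inl (mem_insert_of_mem hv)
        · rcases mem_insert.1 hv with hv | hv
          · refine Or.inl (mem_insert.2 (Or.inl ?_))
            exact Prod.ext hv hv0
          · exact Or.inr (Or.inl ⟨hv, hv0⟩)
        · rw [mem_sdiff, mem_insert, not_or] at hv
          exact Or.inr (Or.inr ⟨mem_sdiff.2 ⟨mem_erase.2 ⟨hv.2.1, hv.1⟩, hv.2.2⟩, hv0⟩)
      · rw [card_insert_of_notMem hiK, ← f5, filter_insert, if_pos (h.he0 i hi),
          card_insert_of_notMem (fun hm => h.hS i hi 0 (mem_filter.1 hm).1)]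
        omega
    · push Not at hn
      obtain ⟨Λ₁, hΛ₁, L₁, hL₁, τ₁, hX₁⟩ := hn
      obtain ⟨K, hK, f, f1, f2, f3, f4, f5⟩ := ih _ _ hc (core_pair h hi hΛ₁ hL₁ hX₁)
      have hiK : i ∉ K := fun hm => notMem_erase i S (hK hm)
      refine ⟨K, hK.trans (erase_subset _ _), f,
        fun v hv => f1 v (mem_insert_of_mem (mem_insert_of_mem hv)), f2, ?_, ?_, ?_⟩
      · intro j hj
        rw [mem_sdiff] at hj
        by_cases hji : j = i
        · subst hji
          exact ⟨f1 _ (mem_insert_self _ _), f1 _ (mem_insert_of_mem (mem_insert_self _ _))⟩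
        · exact f3 j (mem_sdiff.2 ⟨mem_erase.2 ⟨hji, hj.1⟩, hj.2⟩)
      · refine f4.mono ?_
        rintro v (hv | hv | ⟨hv, hv0⟩)
        · exact Or.inl (mem_insert_of_mem (mem_insert_of_mem hv))
        · exact Or.inr (Or.inl hv)
        · rw [mem_sdiff] at hv
          by_cases hji : v.1 = i
          · left
            rw [mem_insert, mem_insert]
            have h3 : v.2 = 1 ∨ v.2 = 2 := by
              have := v.2
              rcases v with ⟨a, b⟩
              fin_cases b
              · exact absurd rfl hv0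
              · exact Or.inl rfl
              · exact Or.inr rfl
            rcases h3 with h3 | h3
            · exact Or.inl (Prod.ext hji h3)
            · exact Or.inr (Or.inl (Prod.ext hji h3))
          · exact Or.inr (Or.inr ⟨mem_sdiff.2 ⟨mem_erase.2 ⟨hji, hv.1⟩, hv.2⟩, hv0⟩)
      · rw [← f5, filter_insert, if_neg (by rw [h.he1 i hi]; simp), filter_insert,
          if_neg (by rw [h.he2 i hi]; simp)]

end Pool.Agent.Helper878_mm
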