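import Pool.Agent.Helper878_mm.MM2

/-!
# Bounded dual solutions suffice
-/

set_option autoImplicit false
set_option linter.unusedSectionVars false

namespace Pool.Agent.Helper878_mm

open Finset

variable {α ι : Type} [DecidableEq α] [DecidableEq ι] [Fintype ι]
variable {W : Finset α} {σ : ι → α → Fin 3}

/-- an interval without levels -/
theorem gap {y : α → ℕ} {w0 : α} (hw0 : w0 ∈ W) (hy0 : 2 * W.card + 2 ≤ y w0) :
    ∃ s, 1 ≤ s ∧ s + 2 ≤ 2 * W.card + 1 ∧ ∀ w ∈ W, y w ≤ s ∨ s + 3 ≤ y w := by
  by_contra hn
  push Not at hn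
  have h1 : Icc 1 W.card ⊆ (W.erase w0).image fun w => y w / 2 := by
    intro j hj
    rw [mem_Icc] at hj
    obtain ⟨w, hw, h2, h3⟩ := hn (2 * j - 1) (by omega) (by omega)
    rw [mem_image]
    refine ⟨w, mem_erase.2 ⟨?_, hw⟩, by omega⟩
    rintro rfl
    omega
  have h2 := card_le_card h1
  have h3 : ((W.erase w0).image fun w => y w / 2).card ≤ (W.erase w0).card := card_image_le
  have h4 := card_erase_add_one hw0
  rw [Nat.card_Icc] at h2
  omega

theorem trunc (HB : ∀ y m, DF W σ y m → (∀ w ∈ W, y w ≤ 2 * W.card + 1) →
    ∑ i, m i ≤ ∑ w ∈ W, y w) :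
    ∀ (N : ℕ) (y : α → ℕ) (m : ι → ℕ), ∑ w ∈ W, y w ≤ N → DF W σ y m →
      ∑ i, m i ≤ ∑ w ∈ W, y w := by
  intro N
  induction N with
  | zero =>
    intro y m hN h
    exfalso
    obtain ⟨e, he, he1⟩ := h.ex
    have := single_le_sum (f := y) (fun _ _ => Nat.zero_le _) he
    omega
  | succ N ih =>
    intro y m hN h
    by_cases hb : ∀ w ∈ W, y w ≤ 2 * W.card + 1
    · exact HB y m h hb
    push Not at hb
    obtain ⟨w0, hw0, hy0⟩ := hb
    obtain ⟨s, hs1, hs2, hs3⟩ := gap hw0 (y := y) (by omega)
    obtain ⟨e, he, he1⟩ := h.ex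
    by_contra hlt
    push Not at hlt
    set H := W.filter fun w => s + 3 ≤ y w with hH
    set R : Finset ι := univ.filter fun i => (∀ c ∈ W, σ i c = 0 → c ∈ H) ∧
      ∀ a ∈ W, ∀ b ∈ W, σ i a = 1 → σ i b = 2 → a ∈ H ∨ b ∈ H with hR
    have mH : ∀ w, w ∈ H ↔ w ∈ W ∧ s + 3 ≤ y w := fun w => by rw [hH, mem_filter]
    have mR : ∀ i, i ∈ R ↔ (∀ c ∈ W, σ i c = 0 → c ∈ H) ∧
        ∀ a ∈ W, ∀ b ∈ W, σ i a = 1 → σ i b = 2 → a ∈ H ∨ b ∈ H := fun i => by
      rw [hR, mem_filter]
      exact ⟨fun h => h.2, fun h => ⟨mem_univ _, h⟩⟩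
    have hlow : ∀ w ∈ W, w ∉ H → y w ≤ s := by
      intro w hw hwH
      rcases hs3 w hw with h1 | h1
      · exact h1
      · exact absurd ((mH w).2 ⟨hw, h1⟩) hwH
    have heH : e ∉ H := fun hm => by
      have := ((mH e).1 hm).2
      omega
    -- indices with a low option
    have hR1 : ∀ i, i ∉ R → m i ≤ s + 1 := by
      intro i hi
      rw [mR, not_and_or] at hi
      rcases hi with hi | hi
      · push Not at hi
        obtain ⟨c, hc, hz, hcH⟩ := hi
        have := h.zero i c hc hz
        have := hlow c hc hcH
        omega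
      · push Not at hi
        obtain ⟨a, ha, b, hb, h1, h2, haH, hbH⟩ := hi
        have ya := hlow a ha haH
        have yb := hlow b hb hbH
        rcases fin3 (σ i e) with h0 | h0 | h0
        · have := h.zero i e he h0
          omega
        · have := h.pair i e he b hb h0 h2
          omega
        · have := h.pair i a ha e he h1 h0
          omega
    have hside : ∀ i a b, a ∈ W → b ∈ W → σ i a = 1 → σ i b = 2 →
        m i ≤ 1 + y b ∨ m i ≤ 1 + y a := by
      intro i a b ha hb h1 h2
      rcases fin3 (σ i e) with h0 | h0 | h0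
      · have := h.zero i e he h0
        left; omega
      · have := h.pair i e he b hb h0 h2
        left; omega
      · have := h.pair i a ha e he h1 h0
        right; omega
    -- lower
    have hdf : DF W σ (fun w => y w - if w ∈ H then 1 else 0)
        (fun i => m i - if i ∈ R then 1 else 0) := by
      refine ⟨?_, ⟨e, he, by simp [he1, heH]⟩, ?_, ?_⟩
      · intro w hw
        have := h.one w hw
        by_cases hwH : w ∈ H
        · have := ((mH w).1 hwH).2
          simp only [hwH, if_true]; omega
        · simp only [hwH, if_false]; omega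
      · intro i c hc hz
        have e1 := h.zero i c hc hz
        by_cases hi : i ∈ R
        · have hcH := ((mR i).1 hi).1 c hc hz
          simp only [hi, hcH, if_true]; omega
        · have e2 := hR1 i hi
          by_cases hcH : c ∈ H
          · have := ((mH c).1 hcH).2
            simp only [hi, hcH, if_true, if_false]; omega
          · simp only [hi, hcH, if_false]; omega
      · intro i a ha b hb h1 h2
        have e1 := h.pair i a ha b hb h1 h2
        by_cases hi : i ∈ R
        · have hab := ((mR i).1 hi).2 a ha b hb h1 h2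
          by_cases haH : a ∈ H
          · have e3 := ((mH a).1 haH).2
            by_cases hbH : b ∈ H
            · have e4 := ((mH b).1 hbH).2
              simp only [hi, haH, hbH, if_true]
              rcases hside i a b ha hb h1 h2 with h5 | h5 <;> omega
            · simp only [hi, haH, hbH, if_true, if_false]; omega
          · have hbH : b ∈ H := hab.resolve_left haH
            have e4 := ((mH b).1 hbH).2
            simp only [hi, haH, hbH, if_true, if_false]; omega
        · have e2 := hR1 i hi
          by_cases haH : a ∈ H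
          · have e3 := ((mH a).1 haH).2
            by_cases hbH : b ∈ H
            · have e4 := ((mH b).1 hbH).2
              simp only [hi, haH, hbH, if_true, if_false]; omega
            · simp only [hi, haH, hbH, if_true, if_false]; omega
          · by_cases hbH : b ∈ H
            · have e4 := ((mH b).1 hbH).2
              simp only [hi, haH, hbH, if_true, if_false]; omega
            · simp only [hi, haH, hbH, if_false]; omega
    have hHW : H ⊆ W := filter_subset _ _
    have e1 : ∑ w ∈ W, (y w - if w ∈ H then 1 else 0) + H.card = ∑ w ∈ W, y w := by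
      have : ∑ w ∈ W, (if w ∈ H then 1 else 0) = H.card := by
        rw [sum_boole]
        have e2 : (W.filter fun w => w ∈ H) = H := by
          ext w
          rw [mem_filter]
          exact ⟨fun h => h.2, fun h => ⟨hHW h, h⟩⟩
        rw [e2]; simp
      rw [← this, ← sum_add_distrib]
      refine sum_congr rfl fun w hw => ?_
      have := h.one w hw
      split_ifs <;> omega
    have e2 : ∑ i, m i ≤ ∑ i, (m i - if i ∈ R then 1 else 0) + R.card := by
      have : ∑ i, (if i ∈ R then 1 else 0) = R.card := by
        rw [sum_boole]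
        have e2 : (univ.filter fun i => i ∈ R) = R := by ext; simp
        rw [e2]; simp
      rw [← this, ← sum_add_distrib]
      refine sum_le_sum fun i _ => ?_
      split_ifs <;> omega
    have hHc : 1 ≤ H.card := card_pos.2 ⟨w0, (mH w0).2 ⟨hw0, by omega⟩⟩
    have e3 := ih _ _ (by omega) hdf
    have hRH : H.card + 1 ≤ R.card := by omega
    -- the violating solution
    have hdf2 : DF W σ (fun w => 1 + W.card * if w ∈ H then 1 else 0)
        (fun i => 1 + W.card * if i ∈ R then 1 else 0) := by
      refine ⟨fun w _ => by omega, ⟨e, he, by simp [heH]⟩, ?_, ?_⟩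
      · intro i c hc hz
        by_cases hi : i ∈ R
        · have hcH := ((mR i).1 hi).1 c hc hz
          simp only [hi, hcH, if_true]; omega
        · simp only [hi, if_false]; omega
      · intro i a ha b hb h1 h2
        by_cases hi : i ∈ R
        · rcases ((mR i).1 hi).2 a ha b hb h1 h2 with hm | hm
          · simp only [hi, hm, if_true]; omega
          · simp only [hi, hm, if_true]; omega
        · simp only [hi, if_false]; omega
    have hWc : 1 ≤ W.card := card_pos.2 ⟨w0, hw0⟩
    have e4 := HB _ _ hdf2 (by
      intro w _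
      split_ifs <;> omega)
    rw [sum_add_distrib, sum_add_distrib, ← mul_sum, ← mul_sum, sum_boole, sum_boole] at e4
    have e5 : (univ.filter fun i => i ∈ R) = R := by ext; simp
    have e6 : (W.filter fun w => w ∈ H) = H := by
      ext w
      rw [mem_filter]
      exact ⟨fun h => h.2, fun h => ⟨hHW h, h⟩⟩
    rw [e5, e6, sum_const, sum_const, smul_eq_mul, smul_eq_mul, Nat.cast_id, Nat.cast_id] at e4
    have e7 : R.card ≤ (univ : Finset ι).card := card_le_card (subset_univ _)
    have e8 : W.card * (H.card + 1) ≤ W.card * R.card := Nat.mul_le_mul_left _ hRH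
    rw [Nat.mul_add] at e8
    omega

/-- The min-max theorem with bounded dual solutions. -/
theorem min_max' (hW : W.Nonempty) (HB : ∀ y m, DF W σ y m → (∀ w ∈ W, y w ≤ 2 * W.card + 1) →
    ∑ i, m i ≤ ∑ w ∈ W, y w) :
    ∃ o : ι → Finset α, (∀ i, IsOpt W σ i (o i)) ∧ ∀ i j, i ≠ j → Disjoint (o i) (o j) :=
  min_max hW fun y m h => trunc HB _ y m (le_refl _) h

end Pool.Agent.Helper878_mm
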